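import Pool.Agent.H97.Pcp.Defs

/-!
# The certificates can be checked

`Pool.Agent.H97.Pcp.Chk` is a primitive recursive relation, and certificates can be found by search.
-/

set_option autoImplicit false

namespace Pool.Agent.W5h69.Tag.Check

open Pool.Agent.H97.Tag Pool.Agent.H97.Pcp

/-! ### A closed form of a sweep -/

theorem rd_drop {A B : Type*} (n : ℕ) (w : A → List B) : ∀ (s : ℕ) (u : List A),
    rd n w s u = rd n w 0 (u.drop s)
  | 0, u => rfl
  | s + 1, [] => rfl
  | s + 1, _ :: u => by
      rw [rd, rd_drop n w s u]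
      rfl

theorem pass_eq (w1 : List Bool) : ∀ (n : ℕ) (x : List Bool), x.length ≤ n →
    pass w1 x = (List.range ((x.length + 5) / 6)).flatMap
      (fun k => bif x.getD (6 * k) false then w1 else [false]) := by
  intro n
  induction n with
  | zero =>
    intro x hx
    have : x = [] := List.eq_nil_of_length_eq_zero (by omega)
    subst this
    rfl
  | succ n ih =>
    intro x hx
    cases x with
    | nil => rfl
    | cons a u =>
      have h1 : pass w1 (a :: u) = rule w1 a ++ pass w1 (u.drop 5) := by
        unfold Pool.Agent.H97.Pcp.pass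
        rw [rd, ← rd_drop]
      rw [h1, ih (u.drop 5) (by rw [List.length_drop]; simp only [List.length_cons] at hx; omega)]
      have h2 : (((a :: u).length + 5) / 6) = ((u.drop 5).length + 5) / 6 + 1 := by
        rw [List.length_drop, List.length_cons]
        omega
      rw [h2, List.range_succ_eq_map, List.flatMap_cons, List.flatMap_map]
      congr 1
      apply List.flatMap_congr
      intro k _
      have h3 : (a :: u).getD (6 * k.succ) false = (u.drop 5).getD (6 * k) false := by
        rw [List.getD_eq_getElem?_getD, List.getD_eq_getElem?_getD, List.getElem?_drop,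
          show 6 * k.succ = (5 + 6 * k) + 1 by omega, List.getElem?_cons_succ]
      rw [h3]

theorem pass_prim : Primrec₂ pass := by
  have h : Primrec₂ (fun w1 x : List Bool => (List.range ((x.length + 5) / 6)).flatMap
      (fun k => bif x.getD (6 * k) false then w1 else [false])) := by
    refine Primrec.list_flatMap ?_ ?_
    · exact Primrec.list_range.comp (Primrec.nat_div.comp (Primrec.nat_add.comp
        (Primrec.list_length.comp Primrec.snd) (Primrec.const 5)) (Primrec.const 6))
    · refine Primrec.cond ?_ ?_ (Primrec.const _)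
      · exact (Primrec.list_getD false).comp (Primrec.snd.comp Primrec.fst)
          (Primrec.nat_mul.comp (Primrec.const 6) Primrec.snd)
      · exact Primrec.fst.comp Primrec.fst
  exact h.of_eq fun w1 x => (pass_eq w1 x.length x le_rfl).symm

/-! ### Tools -/

section

variable {α β : Type*} [Primcodable α] [Primcodable β]

theorem pass_comp {f g : α → List Bool} (hf : Primrec f) (hg : Primrec g) :
    Primrec (fun a => pass (f a) (g a)) := pass_prim.comp hf hg

theorem iter_comp {n : α → ℕ} {f g : α → List Bool} (hn : Primrec n) (hf : Primrec f)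
    (hg : Primrec g) : Primrec (fun a => (pass (f a))^[n a] (g a)) :=
  Primrec.nat_iterate (h := fun a x => pass (f a) x) hn hg
    (pass_comp (hf.comp Primrec.fst) Primrec.snd)

theorem repl_prim {n : α → ℕ} (hn : Primrec n) :
    Primrec (fun a => List.replicate (n a) false) := by
  have h : Primrec (fun a => (List.range (n a)).map (fun _ => false)) :=
    Primrec.list_map (Primrec.list_range.comp hn) (Primrec.const false).to₂
  refine h.of_eq fun a => ?_
  rw [List.map_const', List.length_range]

theorem all_mem {f : α → List β} {R : α → β → Prop} (hf : Primrec f)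
    (hR : PrimrecPred (fun q : β × α => R q.2 q.1)) : PrimrecPred (fun a => ∀ x ∈ f a, R a x) :=
  (PrimrecRel.forall_mem_list (R := fun x a => R a x) hR).comp hf Primrec.id

theorem all_lt {f : α → ℕ} {R : α → ℕ → Prop} (hf : Primrec f)
    (hR : PrimrecPred (fun q : ℕ × α => R q.2 q.1)) : PrimrecPred (fun a => ∀ x < f a, R a x) :=
  (all_mem (Primrec.list_range.comp hf) hR).of_eq fun a => by simp

theorem eq_prim {f g : α → β} (hf : Primrec f) (hg : Primrec g) :
    PrimrecPred (fun a => f a = g a) := by
  classical
  exact (Primrec.eq (α := β)).comp hf hg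

theorem lt_prim {f g : α → ℕ} (hf : Primrec f) (hg : Primrec g) :
    PrimrecPred (fun a => f a < g a) := Primrec.nat_lt.comp hf hg

theorem le_prim {f g : α → ℕ} (hf : Primrec f) (hg : Primrec g) :
    PrimrecPred (fun a => f a ≤ g a) := Primrec.nat_le.comp hf hg

theorem mod_prim {f : α → ℕ} (hf : Primrec f) (n : ℕ) : Primrec (fun a => f a % n) :=
  Primrec.nat_mod.comp hf (Primrec.const n)

theorem len_prim {f : α → List β} (hf : Primrec f) : Primrec (fun a => (f a).length) :=
  Primrec.list_length.comp hf

theorem getD_prim {f : α → List β} {n : α → ℕ} (b : β) (hf : Primrec f) (hn : Primrec n) :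
    Primrec (fun a => (f a).getD (n a) b) := (Primrec.list_getD b).comp hf hn

theorem imp_prim {p q : α → Prop} (hp : PrimrecPred p) (hq : PrimrecPred q) :
    PrimrecPred (fun a => p a → q a) := by
  classical
  exact (hp.not.or hq).of_eq fun a => by tauto

theorem cellsW_prim {f : α → List (List Bool)} {v : α → List ℕ} (hf : Primrec f)
    (hv : Primrec v) : Primrec (fun a => cellsW (f a) (v a)) :=
  Primrec.list_flatMap hv (getD_prim [] (hf.comp Primrec.fst) Primrec.snd)

theorem gw_prim {f : α → List (List Bool)} {L y : α → ℕ} (hf : Primrec f) (hL : Primrec L)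
    (hy : Primrec y) : Primrec (fun a => gw (f a) (L a) (y a)) :=
  Primrec.list_append.comp (getD_prim [] hf hy)
    (repl_prim (Primrec.nat_mul.comp (Primrec.const 2) hL))

theorem prod_prim (d : ℕ) (tab : List (List ℕ)) {y : α → ℕ} (hy : Primrec y) :
    Primrec (fun a => prod d tab (y a)) :=
  getD_prim [] (Primrec.const tab) (mod_prim hy d)

theorem Zr_prim (r : ℕ) {f : α → List Bool} (hf : Primrec f) :
    PrimrecPred (fun a => Zr r (f a)) := by
  refine all_lt (R := fun a p => p % 6 = r → (f a).getD p false = false) (len_prim hf) ?_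
  exact imp_prim (eq_prim (mod_prim Primrec.fst 6) (Primrec.const r))
    (eq_prim (getD_prim false (hf.comp Primrec.snd) Primrec.fst) (Primrec.const false))

end

/-! ### The parts of a certificate -/

section

variable {α : Type*} [Primcodable α] {w1 : α → List Bool} {C : α → List (List Bool)}
  {K L y : α → ℕ} {v : α → List ℕ}

theorem ChkN_prim (d : ℕ) (tab : List (List ℕ)) (hw : Primrec w1) (hC : Primrec C)
    (hK : Primrec K) (hL : Primrec L) (hy : Primrec y) :
    PrimrecPred (fun a => ChkN d tab (w1 a) (C a) (K a) (L a) (y a)) := by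
  have hg := gw_prim hC hL hy
  refine PrimrecPred.and ?_ (PrimrecPred.and ?_ (PrimrecPred.and ?_ (PrimrecPred.and ?_ ?_)))
  · exact all_mem (R := fun a x => x < (C a).length) (prod_prim d tab hy)
      (lt_prim Primrec.fst (len_prim (hC.comp Primrec.snd)))
  · exact all_lt (R := fun a t => ((pass (w1 a))^[t] (gw (C a) (L a) (y a))).length % 6 = 0) hK
      (eq_prim (mod_prim (len_prim (iter_comp Primrec.fst (hw.comp Primrec.snd)
        (hg.comp Primrec.snd))) 6) (Primrec.const 0))
  · exact eq_prim (iter_comp hK hw hg) (cellsW_prim hC (prod_prim d tab hy))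
  · exact Zr_prim 1 (iter_comp (Primrec.const 2) hw hg)
  · exact Zr_prim 1 (iter_comp (Primrec.const 3) hw hg)

theorem ChkS_prim (hw : Primrec w1) (hC : Primrec C) (hL : Primrec L) (hy : Primrec y) :
    PrimrecPred (fun a => ChkS (w1 a) (C a) (L a) (y a)) := by
  have hg := gw_prim hC hL hy
  have h1 := pass_comp hw hg
  have h2 := pass_comp hw h1
  refine PrimrecPred.and ?_ (PrimrecPred.and ?_ (PrimrecPred.and ?_ ?_))
  · exact eq_prim (mod_prim (len_prim h1) 6) (Primrec.const 0)
  · exact eq_prim (mod_prim (len_prim h2) 6) (Primrec.const 5)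
  · exact le_prim (Primrec.const 11) (len_prim h2)
  · exact all_lt (R := fun a p => (pass (w1 a) (pass (w1 a) (gw (C a) (L a) (y a)))).getD p false
      = false) (len_prim h2)
      (eq_prim (getD_prim false (h2.comp Primrec.snd) Primrec.fst) (Primrec.const false))

theorem ChkC_prim (hC : Primrec C) (hL : Primrec L) :
    PrimrecPred (fun a => ChkC (C a) (L a)) := by
  refine all_lt (R := fun a y => ((C a).getD y []).length = L a ∧
    ∀ p < L a, ((L a + p) % 6 = 0 ∨ (2 * L a + p) % 6 = 0) →
      ((C a).getD y []).getD p false = false) (len_prim hC) ?_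
  have hC' : Primrec (fun q : ℕ × α => (C q.2).getD q.1 []) :=
    getD_prim [] (hC.comp Primrec.snd) Primrec.fst
  have hL' : Primrec (fun q : ℕ × α => L q.2) := hL.comp Primrec.snd
  refine PrimrecPred.and (eq_prim (len_prim hC') hL') ?_
  refine all_lt (R := fun (q : ℕ × α) p => ((L q.2 + p) % 6 = 0 ∨ (2 * L q.2 + p) % 6 = 0) →
      ((C q.2).getD q.1 []).getD p false = false) hL' ?_
  have hL'' : Primrec (fun q : ℕ × ℕ × α => L q.2.2) := hL'.comp Primrec.snd
  refine imp_prim (PrimrecPred.or ?_ ?_) ?_
  · exact eq_prim (mod_prim (Primrec.nat_add.comp hL'' Primrec.fst) 6) (Primrec.const 0)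
  · exact eq_prim (mod_prim (Primrec.nat_add.comp
      (Primrec.nat_mul.comp (Primrec.const 2) hL'') Primrec.fst) 6) (Primrec.const 0)
  · exact eq_prim (getD_prim false (hC'.comp Primrec.snd) Primrec.fst) (Primrec.const false)

theorem ChkW_prim (hw : Primrec w1) : PrimrecPred (fun a => ChkW (w1 a)) := by
  refine PrimrecPred.and ?_ (PrimrecPred.and ?_ (PrimrecPred.and ?_ ?_))
  · exact eq_prim (mod_prim (len_prim hw) 5) (Primrec.const 1)
  · exact eq_prim (getD_prim false hw (Primrec.const 0)) (Primrec.const true)
  · exact eq_prim (getD_prim false hw (Primrec.nat_sub.comp (len_prim hw) (Primrec.const 1)))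
      (Primrec.const false)
  · refine all_lt (R := fun a i => (w1 a).getD i false = true → i % 5 = 0 → i = 0)
      (len_prim hw) ?_
    exact imp_prim (eq_prim (getD_prim false (hw.comp Primrec.snd) Primrec.fst)
      (Primrec.const true)) (imp_prim (eq_prim (mod_prim Primrec.fst 5) (Primrec.const 0))
      (eq_prim Primrec.fst (Primrec.const 0)))

theorem Vw_prim {k : α → ℕ} (hw : Primrec w1) (hk : Primrec k) :
    Primrec (fun a => Vw (w1 a) (k a)) :=
  Primrec.list_take.comp (Primrec.nat_mul.comp (Primrec.const 6) hk)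
    (pass_comp hw (Primrec.list_take.comp (Primrec.nat_mul.comp (Primrec.const 6)
      (Primrec.nat_div.comp (len_prim hw) (Primrec.const 6))) hw))

theorem Tw_prim {k : α → ℕ} (hw : Primrec w1) (hk : Primrec k) :
    Primrec (fun a => Tw (w1 a) (k a)) :=
  Primrec.list_drop.comp (Primrec.nat_mul.comp (Primrec.const 6) hk)
    (pass_comp hw (Vw_prim hw hk))

theorem ChkT_prim {k K' : α → ℕ} (hv : Primrec v) (hw : Primrec w1) (hC : Primrec C)
    (hk : Primrec k) (hK : Primrec K') :
    PrimrecPred (fun a => ChkT (v a) (w1 a) (C a) (k a) (K' a)) := by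
  have h6 : Primrec (fun a => 6 * k a) := Primrec.nat_mul.comp (Primrec.const 6) hk
  have hV := Vw_prim hw hk
  have hT := Tw_prim hw hk
  refine PrimrecPred.and ?_ (PrimrecPred.and ?_ (PrimrecPred.and ?_ (PrimrecPred.and ?_ ?_)))
  · exact eq_prim (len_prim hV) h6
  · exact eq_prim (Primrec.list_take.comp h6 (pass_comp hw hV)) hV
  · exact all_lt (R := fun a t => ((pass (w1 a))^[t] (Tw (w1 a) (k a))).length % 6 = 0) hK
      (eq_prim (mod_prim (len_prim (iter_comp Primrec.fst (hw.comp Primrec.snd)
        (hT.comp Primrec.snd))) 6) (Primrec.const 0))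
  · exact eq_prim (iter_comp hK hw hT) (cellsW_prim hC hv)
  · exact all_mem (R := fun a x => x < (C a).length) hv
      (lt_prim Primrec.fst (len_prim (hC.comp Primrec.snd)))

end

/-- Correctness of a certificate is primitive recursive. -/
theorem chk_primrec (d : ℕ) (tab : List (List ℕ)) :
    PrimrecPred (fun p : List ℕ × Cert => Chk d tab p.1 p.2) := by
  have hv : Primrec (fun p : List ℕ × Cert => p.1) := Primrec.fst
  have hw : Primrec (fun p : List ℕ × Cert => p.2.1.1) :=
    Primrec.fst.comp (Primrec.fst.comp Primrec.snd)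
  have hC : Primrec (fun p : List ℕ × Cert => p.2.1.2) :=
    Primrec.snd.comp (Primrec.fst.comp Primrec.snd)
  have hK : Primrec (fun p : List ℕ × Cert => p.2.2.1) :=
    Primrec.fst.comp (Primrec.snd.comp Primrec.snd)
  have hL : Primrec (fun p : List ℕ × Cert => p.2.2.2.1) :=
    Primrec.fst.comp (Primrec.snd.comp (Primrec.snd.comp Primrec.snd))
  have hk : Primrec (fun p : List ℕ × Cert => p.2.2.2.2.1) :=
    Primrec.fst.comp (Primrec.snd.comp (Primrec.snd.comp (Primrec.snd.comp Primrec.snd)))
  have hK' : Primrec (fun p : List ℕ × Cert => p.2.2.2.2.2) :=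
    Primrec.snd.comp (Primrec.snd.comp (Primrec.snd.comp (Primrec.snd.comp Primrec.snd)))
  have hs : ∀ {β : Type} [Primcodable β] {f : List ℕ × Cert → β}, Primrec f →
      Primrec (fun q : ℕ × (List ℕ × Cert) => f q.2) := fun hf => hf.comp Primrec.snd
  refine PrimrecPred.and (ChkW_prim hw) (PrimrecPred.and (ChkC_prim hC hL)
    (PrimrecPred.and ?_ (PrimrecPred.and ?_ (PrimrecPred.and ?_
      (ChkT_prim hv hw hC hk hK')))))
  · refine PrimrecPred.and ?_ (PrimrecPred.and ?_ (PrimrecPred.and ?_ ?_))
    · exact eq_prim (mod_prim (Primrec.nat_mul.comp (Primrec.const 3) hL) 6) (Primrec.const 0)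
    · exact eq_prim (mod_prim hL 5) (Primrec.const 0)
    · exact lt_prim (Primrec.const 0) hL
    · exact le_prim (Primrec.const 4) hK
  · refine all_lt (R := fun (p : List ℕ × Cert) y => prod d tab y ≠ [] →
      ChkN d tab p.2.1.1 p.2.1.2 p.2.2.1 p.2.2.2.1 y) (len_prim hC) ?_
    exact imp_prim (eq_prim (prod_prim d tab Primrec.fst) (Primrec.const [])).not
      (ChkN_prim d tab (hs hw) (hs hC) (hs hK) (hs hL) Primrec.fst)
  · refine all_lt (R := fun (p : List ℕ × Cert) y => prod d tab y = [] →
      ChkS p.2.1.1 p.2.1.2 p.2.2.2.1 y) (len_prim hC) ?_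
    exact imp_prim (eq_prim (prod_prim d tab Primrec.fst) (Primrec.const []))
      (ChkS_prim (hs hw) (hs hC) (hs hL) Primrec.fst)

/-- The test on the code of a certificate. -/
def tst {κ : Type} (R : ℕ → κ → Bool) (n : ℕ) (o : Option κ) : Bool :=
  Option.casesOn (motive := fun _ => Bool) o false (R n)

theorem tst_computable {κ : Type} [Primcodable κ] {R : ℕ → κ → Bool}
    (hR : Computable (fun q : ℕ × κ => R q.1 q.2)) :
    Computable (fun q : ℕ × ℕ => tst R q.1 (Encodable.decode (α := κ) q.2)) := by
  have h1 : Computable (fun q : ℕ × ℕ => (Encodable.decode (α := κ) q.2)) :=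
    Computable.decode.comp Computable.snd
  have h2 : Computable₂ (fun (q : ℕ × ℕ) (c : κ) => R q.1 c) :=
    hR.comp ((Computable.fst.comp Computable.fst).pair Computable.snd)
  exact Computable.option_casesOn h1 (Computable.const false) h2

/-- Search for a certificate. -/
theorem search_aux {κ : Type} [Primcodable κ] [Inhabited κ] {R : ℕ → κ → Bool}
    (hR : Computable (fun q : ℕ × κ => R q.1 q.2)) (h : ∀ n, ∃ c, R n c = true) :
    ∃ f : ℕ → κ, Computable f ∧ ∀ n, R n (f n) = true := by
  classical
  have hex : ∀ n, ∃ m, tst R n (Encodable.decode (α := κ) m) = true := by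
    intro n
    obtain ⟨c, hc⟩ := h n
    refine ⟨Encodable.encode c, ?_⟩
    rw [Encodable.encodek]
    exact hc
  have hP : ComputablePred (fun q : ℕ × ℕ => tst R q.1 (Encodable.decode (α := κ) q.2) = true) := by
    refine ⟨fun q => inferInstance, ?_⟩
    refine (tst_computable hR).of_eq fun q => ?_
    simp
  have hg := Computable.find (P := fun n m => tst R n (Encodable.decode (α := κ) m) = true) hP hex
  refine ⟨fun n => (Encodable.decode (α := κ) (Nat.find (hex n))).getD default, ?_, ?_⟩
  · exact Computable.option_getD (Computable.decode.comp hg) (Computable.const default)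
  · intro n
    have h2 : ∀ o : Option κ, tst R n o = true → R n (o.getD default) = true := by
      intro o ho
      cases o with
      | none => exact absurd ho (by simp [tst])
      | some c => exact ho
    exact h2 _ (Nat.find_spec (hex n))

/-- Certificates can be found by search. -/
theorem search {v : ℕ → List ℕ} (hv : Computable v) (d : ℕ) (tab : List (List ℕ))
    (h : ∀ n, ∃ c, Chk d tab (v n) c) :
    ∃ f : ℕ → Cert, Computable f ∧ ∀ n, Chk d tab (v n) (f n) := by
  classical
  have : Inhabited Cert := ⟨(([], []), (0, 0, 0, 0))⟩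
  obtain ⟨hd, hp⟩ := chk_primrec d tab
  have hR : Computable (fun q : ℕ × Cert => decide (Chk d tab (v q.1) q.2)) := by
    refine (hp.to_comp.comp ((hv.comp Computable.fst).pair Computable.snd)).of_eq fun q => ?_
    congr
  obtain ⟨f, h1, h2⟩ := search_aux (κ := Cert) (R := fun n c => decide (Chk d tab (v n) c)) hR
    (fun n => by
      obtain ⟨c, hc⟩ := h n
      exact ⟨c, decide_eq_true hc⟩)
  exact ⟨f, h1, fun n => of_decide_eq_true (h2 n)⟩

end Pool.Agent.W5h69.Tag.Check
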