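import Pool.Agent.W5h69.Tag.Stack
import Pool.Agent.Helper522.Kos.Src

/-!
# Universality of aligned tag systems
-/

set_option autoImplicit false

namespace Pool.Agent.W5h69.Tag

open List StateTransition Relation Pool.Agent.H97.Tag Pool.Agent.Helper522.Kos.Queue

/-- A queue system with undecidable reachability of the word `[κ]`. -/
theorem exists_queue : ∃ (S : Type) (_ : Fintype S) (_ : DecidableEq S)
    (Pr : S → S → List S) (κ : S) (u : ℕ → List S),
    (∀ x y, 2 ≤ (Pr x y).length ∨ Pr x y = [κ]) ∧
    (∀ g : S → ℕ, Computable fun n => (u n).map g) ∧ (∀ n, 2 ≤ (u n).length) ∧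
    ¬ ComputablePred fun n => QReach Pr (u n) [κ] := by
  classical
  obtain ⟨Λ, i1, i2, M, hM⟩ := Pool.Agent.Helper522.Kos.Univ.exists_machine
  let S := Pool.Agent.Helper522.Kos.Queue.Sym
    (Turing.TM2to1.Γ' Turing.PartrecToTM2.K' (fun _ => Turing.PartrecToTM2.Γ')) Λ
  have fK : Finite Turing.PartrecToTM2.K' := by
    refine Finite.of_injective (fun k : Turing.PartrecToTM2.K' => match k with
      | .main => (0 : Fin 4)
      | .rev => 1
      | .aux => 2
      | .stack => 3) ?_
    intro a b h
    cases a <;> cases b <;> simp_all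
  have fG : Finite (Turing.TM2to1.Γ' Turing.PartrecToTM2.K'
      (fun _ => Turing.PartrecToTM2.Γ')) :=
    inferInstanceAs (Finite (Bool × (Turing.PartrecToTM2.K' → Option Turing.PartrecToTM2.Γ')))
  have fS : Finite S := inferInstanceAs (Finite (Pool.Agent.Helper522.Kos.Queue.Sym _ _))
  let iF : Fintype S := Fintype.ofFinite S
  let u : ℕ → List S := fun n => initWord (Pool.Agent.Helper522.Kos.Univ.sym true .cons ::
    (Turing.PartrecToTM2.trNat n).reverse.map (Pool.Agent.Helper522.Kos.Univ.sym false))
  refine ⟨S, iF, inferInstance, prod M, .kill, u, prod_length M, ?_, ?_, ?_⟩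
  · intro g
    have e : ∀ n, (u n).map g = if ((Turing.PartrecToTM2.trNat n).map fun a =>
          g (.cell (Pool.Agent.Helper522.Kos.Univ.sym false a))).length % 2 = 1
        then g .mark :: g (.head default (Pool.Agent.Helper522.Kos.Univ.sym true .cons)) ::
          ((Turing.PartrecToTM2.trNat n).map fun a =>
            g (.cell (Pool.Agent.Helper522.Kos.Univ.sym false a))).reverse
        else g .mark :: g (.cell default) ::
          g (.head default (Pool.Agent.Helper522.Kos.Univ.sym true .cons)) ::
          ((Turing.PartrecToTM2.trNat n).map fun a =>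
            g (.cell (Pool.Agent.Helper522.Kos.Univ.sym false a))).reverse := by
      intro n
      simp only [u, initWord, List.length_cons, List.length_map, List.length_reverse,
        List.headI, List.tail_cons]
      by_cases h : (Turing.PartrecToTM2.trNat n).length % 2 = 1
      · rw [if_pos h, if_pos (by omega)]
        simp [Function.comp_def]
      · rw [if_neg h, if_neg (by omega)]
        simp [Function.comp_def]
    simp only [e]
    have hd := Pool.Agent.Helper522.Kos.Univ.digits_computable fun a =>
      g (.cell (Pool.Agent.Helper522.Kos.Univ.sym false a))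
    have hp : Primrec fun l : List ℕ => if l.length % 2 = 1
        then g .mark :: g (.head default (Pool.Agent.Helper522.Kos.Univ.sym true .cons)) ::
          l.reverse
        else g .mark :: g (.cell default) ::
          g (.head default (Pool.Agent.Helper522.Kos.Univ.sym true .cons)) :: l.reverse := by
      refine Primrec.ite (PrimrecRel.comp Primrec.eq (Primrec.nat_mod.comp Primrec.list_length
        (Primrec.const 2)) (Primrec.const 1)) ?_ ?_
      · exact Primrec.list_cons.comp (Primrec.const _) (Primrec.list_cons.comp (Primrec.const _)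
          Primrec.list_reverse)
      · exact Primrec.list_cons.comp (Primrec.const _) (Primrec.list_cons.comp (Primrec.const _)
          (Primrec.list_cons.comp (Primrec.const _) Primrec.list_reverse))
    exact hp.to_comp.comp hd
  · intro n
    exact initWord_length _
  · intro h
    apply Pool.Agent.Helper522.Kos.Univ.u_not_computable
    have key : ∀ n, QReach (prod M) (u n) [.kill] ↔
        (Pool.Agent.Helper522.Kos.Univ.u n).Dom := by
      intro n
      rw [← hM n, ← rep_halts M (rep_init _ (by simp))]
    have : (fun n => QReach (prod M) (u n) [.kill]) =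
        fun n => (Pool.Agent.Helper522.Kos.Univ.u n).Dom := by
      funext n; exact propext (key n)
    rwa [this] at h

theorem qf_iff {S : Type} (P : S → S → List S) (a b : List S) :
    b ∈ qf P a ↔ QStep P a b := by
  constructor
  · intro h
    match a, h with
    | x :: y :: t, h =>
      have : t ++ P x y = b := by simpa [qf] using h
      rw [← this]
      exact QStep.mk x y t
  · rintro ⟨x, y, t⟩
    rfl

theorem eval_qf {S : Type} (P : S → S → List S) (κ : S)
    (hP : ∀ x y, 2 ≤ (P x y).length ∨ P x y = [κ]) (w : List S) (hw : 2 ≤ w.length) :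
    (eval (qf P) w).Dom ↔ QReach P w [κ] := by
  have hR : ∀ a b, Reaches (qf P) a b ↔ QReach P a b := by
    intro a b
    constructor
    · intro h
      induction h with
      | refl => exact ReflTransGen.refl
      | tail _ h ih => exact ih.tail ((qf_iff P _ _).1 h)
    · intro h
      induction h with
      | refl => exact ReflTransGen.refl
      | tail _ h ih => exact ih.tail ((qf_iff P _ _).2 h)
  rw [Part.dom_iff_mem]
  constructor
  · rintro ⟨b, hb⟩
    obtain ⟨h1, h2⟩ := mem_eval.1 hb
    have inv : ∀ c, Reaches (qf P) w c → 2 ≤ c.length ∨ c = [κ] := by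
      intro c hc
      induction hc with
      | refl => exact Or.inl hw
      | tail _ h ih =>
        have h' := (qf_iff P _ _).1 h
        cases h' with
        | mk x y t =>
          rcases hP x y with h3 | h3
          · left
            rw [List.length_append]
            omega
          · rcases t with _ | ⟨z, t⟩
            · right
              rw [h3, List.nil_append]
            · left
              rw [h3]
              simp
    rcases inv b h1 with h3 | rfl
    · exfalso
      match b, h3, h2 with
      | x :: y :: t, _, h2 => simp [qf] at h2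
    · exact (hR _ _).1 h1
  · intro h
    exact ⟨[κ], mem_eval.2 ⟨(hR _ _).2 h, rfl⟩⟩

/-! ### Finite alphabets -/

section enc

variable {Q : Type} [Finite Q] (σ : ℕ)

/-- The finite alphabet. -/
abbrev Al (Q : Type) (σ : ℕ) : Type := Option (Option (Fin 5 × Q × Fin σ))

/-- Coding of letters. -/
noncomputable def enc (ℓ : Lt Q) : Fin (Nat.card (Al Q σ)) :=
  match ℓ with
  | .x => Finite.equivFin (Al Q σ) none
  | .y => Finite.equivFin (Al Q σ) (some none)
  | .b T q i => Finite.equivFin (Al Q σ) (if h : i < σ then some (some (T, q, ⟨i, h⟩)) else none)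

/-- Decoding. -/
noncomputable def dec (a : Fin (Nat.card (Al Q σ))) : Lt Q :=
  match (Finite.equivFin (Al Q σ)).symm a with
  | none => .x
  | some none => .y
  | some (some (T, q, i)) => .b T q i.val

/-- Letters which are decoded correctly. -/
def Good (ℓ : Lt Q) : Prop := dec σ (enc σ ℓ) = ℓ

theorem good_x : Good σ (.x : Lt Q) := by simp [Good, dec, enc]

theorem good_y : Good σ (.y : Lt Q) := by simp [Good, dec, enc]

theorem good_b (T : Fin 5) (q : Q) {i : ℕ} (h : i < σ) : Good σ (.b T q i : Lt Q) := by
  simp [Good, dec, enc, h]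

theorem good_blk (T : Fin 5) (q : Q) : ∀ ℓ ∈ blk σ T q, Good σ ℓ := by
  intro ℓ hℓ
  simp only [blk, List.mem_map, List.mem_range] at hℓ
  obtain ⟨i, hi, rfl⟩ := hℓ
  exact good_b σ T q hi

theorem good_rep (m : ℕ) (u : List (Lt Q)) (h : ∀ ℓ ∈ u, Good σ ℓ) :
    ∀ ℓ ∈ rep m u, Good σ ℓ := by
  intro ℓ hℓ
  simp only [rep, List.mem_flatten] at hℓ
  obtain ⟨v, hv, hℓ⟩ := hℓ
  rw [List.eq_of_mem_replicate hv] at hℓ
  exact h ℓ hℓ

theorem good_conf (c : Cfg Q) : ∀ ℓ ∈ conf σ c, Good σ ℓ := by
  intro ℓ hℓ
  unfold conf at hℓ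
  simp only [List.mem_append] at hℓ
  rcases hℓ with h | h | h | h | h | h | h
  · rw [List.eq_of_mem_replicate h]; exact good_x σ
  · exact good_blk σ _ _ ℓ h
  · exact good_rep σ _ _ (good_blk σ _ _) ℓ h
  · exact good_blk σ _ _ ℓ h
  · exact good_rep σ _ _ (good_blk σ _ _) ℓ h
  · exact good_blk σ _ _ ℓ h
  · rw [List.eq_of_mem_replicate h]; exact good_y σ

/-- The productions over the finite alphabet. -/
noncomputable def wF (δ : Q → ℕ → Act Q) (a : Fin (Nat.card (Al Q σ))) :
    List (Option (Fin (Nat.card (Al Q σ)))) := (wt σ δ (dec σ a)).map (Option.map (enc σ))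

theorem rd_enc (δ : Q → ℕ → Act Q) (v : List (Lt Q)) : ∀ s, (∀ ℓ ∈ v, Good σ ℓ) →
    rd σ (wF σ δ) s (v.map (enc σ)) = (rd σ (wt σ δ) s v).map (Option.map (enc σ)) := by
  induction v with
  | nil => intro s _; cases s <;> rfl
  | cons ℓ v ih =>
    intro s hv
    cases s with
    | zero =>
      rw [List.map_cons]
      show wF σ δ (enc σ ℓ) ++ rd σ (wF σ δ) (σ - 1) (v.map (enc σ)) =
        (wt σ δ ℓ ++ rd σ (wt σ δ) (σ - 1) v).map _
      rw [List.map_append, ih _ fun ℓ hℓ => hv ℓ (List.mem_cons_of_mem _ hℓ)]
      congr 1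
      unfold wF
      rw [show dec σ (enc σ ℓ) = ℓ from hv ℓ List.mem_cons_self]
    | succ s =>
      rw [List.map_cons]
      show rd σ (wF σ δ) s (v.map (enc σ)) = (rd σ (wt σ δ) s v).map _
      exact ih s fun ℓ hℓ => hv ℓ (List.mem_cons_of_mem _ hℓ)

theorem some_injective_map {A : Type} {u v : List A} (h : u.map some = v.map some) : u = v :=
  (List.map_injective_iff.2 (Option.some_injective A)) h

end enc

/-- The two facts about a tag system which simulates a machine. -/
theorem tag_step {Q : Type} [Finite Q] {σ : ℕ} (hσ : 2 ≤ σ) (δ : Q → ℕ → Act Q) {c c' : Cfg Q}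
    (hN : 0 < c.N) (h : mstep σ δ c = some c') (v : List (Fin (Nat.card (Al Q σ)))) :
    Step σ (wF σ δ) ((conf σ c).map (enc σ)) v ↔ v = (conf σ c').map (enc σ) := by
  obtain ⟨h1, h2, h3, h4⟩ := step_conf hσ hN h
  have h5 := rd_enc σ δ (conf σ c) 0 (good_conf σ c)
  rw [h4] at h5
  have h6 : ((conf σ c').map some).map (Option.map (enc σ)) =
      ((conf σ c').map (enc σ)).map some := by
    rw [List.map_map, List.map_map]
    rfl
  rw [h6] at h5
  constructor
  · rintro ⟨-, -, -, h7⟩
    rw [h5] at h7
    exact (some_injective_map h7).symm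
  · rintro rfl
    exact ⟨by simpa using h1, by simpa using h2, by simpa using h3, h5⟩

theorem tag_final {Q : Type} [Finite Q] {σ : ℕ} (hσ : 2 ≤ σ) (δ : Q → ℕ → Act Q) {c : Cfg Q}
    (hN : 0 < c.N) (h : mstep σ δ c = none) (hq : quo σ c.N = 1) :
    Final σ (wF σ δ) ((conf σ c).map (enc σ)) ∧
      ∀ v, ¬ Step σ (wF σ δ) ((conf σ c).map (enc σ)) v := by
  obtain ⟨h1, h2, v₁, v₂, h3, h4, h5⟩ := final_conf hσ hN h hq
  have h6 := rd_enc σ δ (conf σ c) 0 (good_conf σ c)
  rw [h5] at h6
  have h7 : (v₁.map some ++ none :: v₂.map some).map (Option.map (enc σ)) =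
      (v₁.map (enc σ)).map some ++ none :: (v₂.map (enc σ)).map some := by
    simp only [List.map_append, List.map_cons, List.map_map, Option.map_none]
    rfl
  rw [h7] at h6
  refine ⟨⟨by simpa using h1, by simpa using h2, v₁.map (enc σ), v₂.map (enc σ), by simpa using h3,
    by simpa using h4, h6⟩, ?_⟩
  rintro v ⟨-, -, -, h8⟩
  rw [h6] at h8
  have h9 : (none : Option (Fin (Nat.card (Al Q σ)))) ∈ v.map some := by
    rw [← h8]
    simp
  simp at h9

theorem not_final {Q : Type} [Finite Q] {σ : ℕ} (hσ : 2 ≤ σ) (δ : Q → ℕ → Act Q) {c c' : Cfg Q}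
    (hN : 0 < c.N) (h : mstep σ δ c = some c') :
    ¬ Final σ (wF σ δ) ((conf σ c).map (enc σ)) := by
  rintro ⟨-, -, v₁, v₂, -, -, h3⟩
  obtain ⟨-, -, -, h4⟩ := (tag_step hσ δ hN h _).2 rfl
  rw [h3] at h4
  have h9 : (none : Option (Fin (Nat.card (Al Q σ)))) ∈ ((conf σ c').map (enc σ)).map some := by
    rw [← h4]
    simp
  simp at h9

theorem wt_ne_nil {Q : Type} {σ : ℕ} (hσ : 2 ≤ σ) (δ : Q → ℕ → Act Q)
    (h1 : ∀ q i q' α β, δ q i = .stay q' α β → 0 < α)
    (h2 : ∀ q i q' α β, δ q i = .swap q' α β → 0 < α ∧ 0 < β) (ℓ : Lt Q) : wt σ δ ℓ ≠ [] := by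
  have hb : ∀ (T : Fin 5) (q : Q), blk σ T q ≠ [] := by
    intro T q h
    have := congrArg List.length h
    rw [blk_length, List.length_nil] at this
    omega
  have hr : ∀ (m : ℕ) (u : List (Lt Q)), 0 < m → u ≠ [] → rep m u ≠ [] := by
    intro m u hm hu h
    obtain ⟨m, rfl⟩ : ∃ k, m = k + 1 := ⟨m - 1, by omega⟩
    unfold rep at h
    rw [List.replicate_succ, List.flatten_cons, List.append_eq_nil_iff] at h
    exact hu h.1
  have hrep : ∀ (m : ℕ) (a : Lt Q), 0 < m → List.replicate m a ≠ [] := by
    intro m a hm h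
    have := congrArg List.length h
    rw [List.length_replicate, List.length_nil] at this
    omega
  cases ℓ with
  | x => simp [wt]
  | y => simp [wt]
  | b T q i =>
    cases hd : δ q i with
    | stay q' α β =>
      have hα := h1 _ _ _ _ _ hd
      fin_cases T
      · simp [wt, hd, hb]
      · simp only [wt, hd, ne_eq, List.map_eq_nil_iff]
        exact hr _ _ hα (hb _ _)
      · simp only [wt, hd, ne_eq, List.map_eq_nil_iff]
        exact hb _ _
      · simp only [wt, hd, ne_eq, List.map_eq_nil_iff]
        exact hr _ _ hα (hb _ _)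
      · simp [wt, hd, hb]
    | swap q' α β =>
      obtain ⟨hα, hβ⟩ := h2 _ _ _ _ _ hd
      have hs : 0 < σ - 1 := by omega
      fin_cases T
      · simp only [wt, hd, ne_eq, List.map_eq_nil_iff]
        exact hrep _ _ hβ
      · simp only [wt, hd, ne_eq, List.map_eq_nil_iff]
        exact hrep _ _ hα
      · simp [wt, hd, hb]
      · simp only [wt, hd, ne_eq, List.map_eq_nil_iff]
        exact hrep _ _ (Nat.mul_pos hs hα)
      · simp only [wt, hd, ne_eq, List.map_eq_nil_iff]
        exact hrep _ _ (by have := Nat.mul_pos hs hβ; omega)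
    | halt =>
      fin_cases T
      · simp [wt, hd]
      · simp [wt, hd, hb]
      · simp [wt, hd, hb]
      · simp [wt, hd, hb]
      · simp [wt, hd, hb]

theorem finite_mode (S : Type) [Finite S] : Finite (Mode S) := by
  refine Finite.of_injective (β := Fin 4 ⊕ (S ⊕ S × S)) (fun m => match m with
    | .a0 => .inl 0
    | .a1 => .inl 1
    | .a2 x => .inr (.inl x)
    | .a3 x y => .inr (.inr (x, y))
    | .b0 => .inl 2
    | .b1 => .inl 3) ?_
  intro a b h
  cases a <;> cases b <;> simp_all

/-- Universality of aligned tag systems. -/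
theorem exists_aligned (σ : ℕ) (hσ : 2 ≤ σ) : ∃ (μ : ℕ) (w : Fin μ → List (Option (Fin μ)))
    (u : ℕ → List (Fin μ)),
    (∀ a, w a ≠ []) ∧ (Computable fun n => (u n).map Fin.val) ∧
    (∀ n, u n ≠ [] ∧ σ ∣ (u n).length) ∧
    (∀ n v, ReflTransGen (Step σ w) (u n) v → Final σ w v ∨ ∃ v', Step σ w v v') ∧
    ¬ ComputablePred (fun n => ∃ v, ReflTransGen (Step σ w) (u n) v ∧ Final σ w v) := by
  classical
  obtain ⟨S, iS, iD, P, κ, u, hP, hcomp, hlen, hund⟩ := exists_queue
  have : Finite (Mode S) := finite_mode S
  let k := Nat.card (Option S)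
  let e : Option S → Fin k := Finite.equivFin (Option S)
  let d : ℕ → Option S := fun i => if h : i < k then (Finite.equivFin (Option S)).symm ⟨i, h⟩
    else none
  have hd : ∀ ℓ, d (e ℓ) = ℓ := by
    intro ℓ
    have h := (e ℓ).2
    simp only [d]
    rw [dif_pos h]
    exact (Finite.equivFin (Option S)).symm_apply_apply ℓ
  let δ := del σ k e d P κ
  let c0 : ℕ → Cfg (Mode S × Fin (k + 1)) := fun n => start (σ := σ) (e := e) (u n)
  have hInv0 : ∀ n, Inv σ k e (c0 n) := fun n => ⟨⟨[], rfl⟩, Or.inl ⟨rfl, _, rfl⟩⟩
  have hInv : ∀ n c, Reaches (mstep σ δ) (c0 n) c → Inv σ k e c := by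
    intro n c hc
    induction hc with
    | refl => exact hInv0 n
    | tail _ h ih => exact (inv_step hσ (d := d) P κ ih).1 _ h
  let U : ℕ → List (Fin (Nat.card (Al (Mode S × Fin (k + 1)) σ))) := fun n =>
    (conf σ (c0 n)).map (enc σ)
  -- reachable words
  have hreach : ∀ n v, ReflTransGen (Step σ (wF σ δ)) (U n) v →
      ∃ c, Reaches (mstep σ δ) (c0 n) c ∧ v = (conf σ c).map (enc σ) := by
    intro n v hv
    induction hv with
    | refl => exact ⟨c0 n, ReflTransGen.refl, rfl⟩
    | tail _ h ih =>
      obtain ⟨c, h1, rfl⟩ := ih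
      have hi := hInv n c h1
      have hpos := inv_pos hσ hi
      cases hc : mstep σ δ c with
      | none =>
        exact absurd h ((tag_final hσ δ hpos hc ((inv_step hσ (d := d) P κ hi).2 hc)).2 _)
      | some c' =>
        exact ⟨c', h1.tail hc, (tag_step hσ δ hpos hc _).1 h⟩
  have hreach' : ∀ n c, Reaches (mstep σ δ) (c0 n) c →
      ReflTransGen (Step σ (wF σ δ)) (U n) ((conf σ c).map (enc σ)) := by
    intro n c hc
    induction hc with
    | refl => exact ReflTransGen.refl
    | tail h1 h ih =>
      exact ih.tail ((tag_step hσ δ (inv_pos hσ (hInv n _ h1)) h _).2 rfl)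
  refine ⟨Nat.card (Al (Mode S × Fin (k + 1)) σ), wF σ δ, U, ?_, ?_, ?_, ?_, ?_⟩
  · intro a h
    unfold wF at h
    rw [List.map_eq_nil_iff] at h
    have hmp : ∀ (ℓ : Option S) (L : List (Option S)), 0 < mv σ k e (ℓ :: L) := fun ℓ L =>
      mv_cons_pos σ k e hσ ℓ L
    have hAp := AA_pos σ k e hσ
    refine wt_ne_nil hσ δ ?_ ?_ _ h
    · intro q i q' α β hq
      simp only [δ, del] at hq
      split_ifs at hq with g1 g2
      · simp only [Act.stay.injEq] at hq
        omega
      · rcases q with ⟨m, j⟩
        cases m with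
        | a0 => simp only [Act.stay.injEq] at hq; omega
        | a1 => simp only [Act.stay.injEq] at hq; omega
        | a2 x =>
          by_cases hx : x = κ
          · simp [hx] at hq
          · simp only [if_neg hx, Act.stay.injEq] at hq
            omega
        | a3 x y => simp at hq
        | b0 => simp only [Act.stay.injEq] at hq; omega
        | b1 => simp at hq
      · simp only [Act.stay.injEq] at hq
        obtain ⟨-, hα, -⟩ := hq
        rcases la_spec σ k e q.1 (d (q.2.val - 1)) with h3 | h3
        · rw [h3] at hα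
          simp only at hα
          omega
        · rw [h3] at hα
          simp only [pA] at hα
          rw [← hα]
          exact Nat.pow_pos (by omega)
    · intro q i q' α β hq
      simp only [δ, del] at hq
      split_ifs at hq with g1 g2
      rcases q with ⟨m, j⟩
      cases m with
      | a0 => simp at hq
      | a1 => simp at hq
      | a2 x =>
        by_cases hx : x = κ
        · simp [hx] at hq
        · simp [hx] at hq
      | a3 x y =>
        simp only [Act.swap.injEq] at hq
        rw [← hq.2.1, ← hq.2.2]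
        exact ⟨hAp _, hmp _ _⟩
      | b0 => simp at hq
      | b1 =>
        simp only [Act.swap.injEq] at hq
        rw [← hq.2.1, ← hq.2.2]
        exact ⟨hAp _, hmp _ _⟩
  · -- computability
    have hN : Computable fun n => (c0 n).N := by
      have h1 := hcomp fun s => pA σ k e (some s)
      have h2 : Primrec fun l : List ℕ => l.foldr (fun s m => s * m + (s / σ - 1)) 0 := by
        refine Primrec.list_foldr Primrec.id (Primrec.const 0)
          (h := fun (_ : List ℕ) (p : ℕ × ℕ) => p.1 * p.2 + (p.1 / σ - 1)) ?_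
        refine Primrec.nat_add.comp (Primrec.nat_mul.comp (Primrec.fst.comp Primrec.snd)
          (Primrec.snd.comp Primrec.snd)) (Primrec.nat_sub.comp (Primrec.nat_div.comp
          (Primrec.fst.comp Primrec.snd) (Primrec.const σ)) (Primrec.const 1))
      have h3 : Primrec fun m : ℕ => pA σ k e none * m + pB σ k e none + 1 :=
        Primrec.succ.comp (Primrec.nat_add.comp (Primrec.nat_mul.comp (Primrec.const _)
          Primrec.id) (Primrec.const _))
      refine ((h3.to_comp.comp (h2.to_comp.comp h1))).of_eq fun n => ?_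
      have h4 : ∀ L : List S, (L.map fun s => pA σ k e (some s)).foldr
          (fun s m => s * m + (s / σ - 1)) 0 = mv σ k e (L.map some) := by
        intro L
        induction L with
        | nil => rfl
        | cons s L ih =>
          rw [List.map_cons, List.foldr_cons, ih, List.map_cons]
          show _ = pA σ k e (some s) * mv σ k e (L.map some) + pB σ k e (some s)
          congr 1
          unfold pA pB
          rw [pow_succ, Nat.mul_div_cancel _ (by omega)]
      rw [h4]
      rfl
    have hrep : ∀ a : ℕ, Primrec fun m : ℕ => List.replicate m a := by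
      intro a
      refine (Primrec.list_map Primrec.list_range (Primrec.const a).to₂).of_eq fun m => ?_
      rw [List.map_const', List.length_range]
    have h5 : Primrec fun N : ℕ => List.replicate N (enc σ (.x : Lt (Mode S × Fin (k + 1)))).val ++
        (((blk σ 0 ((Mode.a0 : Mode S), (0 : Fin (k + 1))) ++ (blk σ 2 (Mode.a0, 0) ++
          blk σ 4 (Mode.a0, 0))).map (enc σ)).map Fin.val ++
        List.replicate ((σ - 1) * N) (enc σ (.y : Lt (Mode S × Fin (k + 1)))).val) :=
      Primrec.list_append.comp (hrep _) (Primrec.list_append.comp (Primrec.const _)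
        ((hrep _).comp (Primrec.nat_mul.comp (Primrec.const _) Primrec.id)))
    refine (h5.to_comp.comp hN).of_eq fun n => ?_
    simp only [U, conf]
    rw [show (c0 n).M = 0 from rfl, show (c0 n).q = ((Mode.a0 : Mode S), (0 : Fin (k + 1))) from rfl]
    simp only [rep, List.replicate_zero, List.flatten_nil, List.nil_append, List.map_append,
      List.map_replicate, List.append_assoc]
  · intro n
    refine ⟨?_, ?_⟩
    · have := conf_ne_nil (σ := σ) (c0 n) (inv_pos hσ (hInv0 n))
      simpa [U] using this
    · have := conf_length hσ (c0 n)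
      simpa [U] using this
  · intro n v hv
    obtain ⟨c, h1, rfl⟩ := hreach n v hv
    have hi := hInv n c h1
    have hpos := inv_pos hσ hi
    cases hc : mstep σ δ c with
    | none => exact Or.inl (tag_final hσ δ hpos hc ((inv_step hσ (d := d) P κ hi).2 hc)).1
    | some c' => exact Or.inr ⟨_, (tag_step hσ δ hpos hc _).2 rfl⟩
  · intro hcp
    apply hund
    have key : ∀ n, (∃ v, ReflTransGen (Step σ (wF σ δ)) (U n) v ∧ Final σ (wF σ δ) v) ↔
        QReach P (u n) [κ] := by
      intro n
      rw [← eval_qf P κ hP (u n) (hlen n)]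
      rw [← tr_eval_dom (respects hσ hd P κ hP) (a₁ := u n) (a₂ := c0 n)
        (Or.inr ⟨hlen n, rfl⟩)]
      rw [Part.dom_iff_mem]
      constructor
      · rintro ⟨v, hv, hf⟩
        obtain ⟨c, h1, rfl⟩ := hreach n v hv
        cases hc : mstep σ δ c with
        | none => exact ⟨c, mem_eval.2 ⟨h1, hc⟩⟩
        | some c' => exact absurd hf (not_final hσ δ (inv_pos hσ (hInv n c h1)) hc)
      · rintro ⟨c, hc⟩
        obtain ⟨h1, h2⟩ := mem_eval.1 hc
        have hi := hInv n c h1
        exact ⟨_, hreach' n c h1, (tag_final hσ δ (inv_pos hσ hi) h2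
          ((inv_step hσ (d := d) P κ hi).2 h2)).1⟩
    have h : (fun n => ∃ v, ReflTransGen (Step σ (wF σ δ)) (U n) v ∧ Final σ (wF σ δ) v) =
        fun n => QReach P (u n) [κ] := by
      funext n; exact propext (key n)
    rwa [h] at hcp

end Pool.Agent.W5h69.Tag
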