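import Pool.Agent.H97.Tag.Rd

/-!
# Reaching the empty word in the literal convention is decidable

Words shorter than `n` are not rewritten. Then the empty word can only be reached if a production is
empty, and the run is eventually periodic up to a drift of the length.
-/

set_option autoImplicit false

namespace Pool.Agent.W5h69.Tag.Literal

open List Relation Pool.Agent.H97.Tag

/-- The step as a function; short words are fixed. -/
def sf (n : ℕ) (w : Bool → List Bool) (S : List Bool) : List Bool :=
  if n ≤ S.length then (S ++ w S.headI).drop n else S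

theorem tstep_iff {n : ℕ} (h : 0 < n) (w : Bool → List Bool) (S T : List Bool) :
    TStep n w S T ↔ n ≤ S.length ∧ T = sf n w S := by
  constructor
  · rintro ⟨h1, a, t, rfl, rfl⟩
    exact ⟨h1, by rw [sf, if_pos h1]; rfl⟩
  · rintro ⟨h1, rfl⟩
    refine ⟨h1, ?_⟩
    rcases S with _ | ⟨a, t⟩
    · simp at h1; omega
    · exact ⟨a, t, rfl, by rw [sf, if_pos h1]; rfl⟩

theorem reach_iff {n : ℕ} (h : 0 < n) (w : Bool → List Bool) (S T : List Bool) :
    ReflTransGen (TStep n w) S T ↔ ∃ k, (sf n w)^[k] S = T := by
  constructor
  · intro hr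
    induction hr with
    | refl => exact ⟨0, rfl⟩
    | tail _ hs ih =>
      obtain ⟨k, rfl⟩ := ih
      exact ⟨k + 1, by rw [Function.iterate_succ_apply', ((tstep_iff h _ _ _).1 hs).2]⟩
  · rintro ⟨k, rfl⟩
    induction k with
    | zero => exact ReflTransGen.refl
    | succ k ih =>
      rw [Function.iterate_succ_apply']
      by_cases h1 : n ≤ ((sf n w)^[k] S).length
      · exact ih.tail ((tstep_iff h _ _ _).2 ⟨h1, rfl⟩)
      · rw [show sf n w ((sf n w)^[k] S) = (sf n w)^[k] S by rw [sf, if_neg h1]]
        exact ih

theorem sf_nil {n : ℕ} (h : 0 < n) (w : Bool → List Bool) : sf n w [] = [] := by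
  rw [sf, if_neg (by simp; omega)]

theorem iter_nil {n : ℕ} (h : 0 < n) (w : Bool → List Bool) (j : ℕ) : (sf n w)^[j] [] = [] := by
  induction j with
  | zero => rfl
  | succ j ih => rw [Function.iterate_succ_apply, sf_nil h, ih]

/-! ### Powers of a word -/

/-- The word `u ^ c`. -/
def pw (u : List Bool) (c : ℕ) : List Bool := (List.replicate c u).flatten

theorem pw_succ (u : List Bool) (c : ℕ) : pw u (c + 1) = u ++ pw u c := by
  simp [pw, List.replicate_succ]

theorem pw_succ' (u : List Bool) (c : ℕ) : pw u (c + 1) = pw u c ++ u := by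
  simp [pw, List.replicate_succ']

theorem pw_add (u : List Bool) (c d : ℕ) : pw u (c + d) = pw u c ++ pw u d := by
  rw [pw, pw, pw, List.replicate_add, List.flatten_append]

theorem pw_length (u : List Bool) (c : ℕ) : (pw u c).length = c * u.length := by
  simp [pw]

theorem pw_periodic (u : List Bool) (C p : ℕ) (h : p + u.length < C * u.length) :
    (pw u C)[p + u.length]? = (pw u C)[p]? := by
  obtain ⟨C, rfl⟩ : ∃ k, C = k + 1 := ⟨C - 1, by
    rcases C with _ | C
    · simp at h
    · rfl⟩
  have h' : p < (pw u C).length := by
    rw [pw_length]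
    rw [Nat.succ_mul] at h
    omega
  conv_rhs => rw [pw_succ', List.getElem?_append_left h']
  rw [pw_succ, List.getElem?_append_right (by omega), Nat.add_sub_cancel]

theorem tape_periodic (S u : List Bool) (C p : ℕ) (hp : S.length ≤ p)
    (h : p + u.length < S.length + C * u.length) :
    (S ++ pw u C)[p + u.length]? = (S ++ pw u C)[p]? := by
  rw [List.getElem?_append_right (by omega), List.getElem?_append_right hp,
    ← pw_periodic u C (p - S.length) (by omega)]
  congr 1
  omega

theorem tape_periodic_mul (S u : List Bool) (C p j : ℕ) (hp : S.length ≤ p)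
    (h : p + j * u.length < S.length + C * u.length) :
    (S ++ pw u C)[p + j * u.length]? = (S ++ pw u C)[p]? := by
  induction j with
  | zero => simp
  | succ j ih =>
    rw [Nat.succ_mul] at h
    rw [Nat.succ_mul, ← Nat.add_assoc, tape_periodic S u C (p + j * u.length) (by omega) (by omega)]
    exact ih (by omega)

/-! ### The run -/

section run

variable {n : ℕ} (w : Bool → List Bool) (S : List Bool) (b : Bool)

/-- The number of the letters `b` read in the first `i` steps. -/
def cnt (n : ℕ) (w : Bool → List Bool) (S : List Bool) (b : Bool) : ℕ → ℕ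
  | 0 => 0
  | i + 1 => cnt n w S b i + if ((sf n w)^[i] S).headI = b then 1 else 0

theorem cnt_mono {i j : ℕ} (h : i ≤ j) : cnt n w S b i ≤ cnt n w S b j := by
  induction j, h using Nat.le_induction with
  | base => exact le_rfl
  | succ j _ ih => exact ih.trans (by rw [cnt]; omega)

theorem cnt_le (i : ℕ) : cnt n w S b i ≤ i := by
  induction i with
  | zero => exact le_rfl
  | succ i ih => rw [cnt]; split_ifs <;> omega

variable {k : ℕ} (hal : ∀ i < k, n ≤ ((sf n w)^[i] S).length) (he : w (!b) = [])

include hal he in
theorem state {i : ℕ} (hi : i ≤ k) :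
    (sf n w)^[i] S = (S ++ pw (w b) (cnt n w S b i)).drop (i * n) ∧
      i * n ≤ (S ++ pw (w b) (cnt n w S b i)).length := by
  induction i with
  | zero => simp [cnt, pw]
  | succ i ih =>
    obtain ⟨h1, h2⟩ := ih (by omega)
    have h3 := hal i (by omega)
    have h4 : ∀ X : List Bool, (sf n w)^[i] S ++ X =
        ((S ++ pw (w b) (cnt n w S b i)) ++ X).drop (i * n) := by
      intro X
      rw [List.drop_append_of_le_length h2, ← h1]
    have h5 : (sf n w)^[i + 1] S = ((S ++ pw (w b) (cnt n w S b i)) ++
        w ((sf n w)^[i] S).headI).drop ((i + 1) * n) := by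
      rw [Function.iterate_succ_apply', sf, if_pos h3, h4, List.drop_drop]
      congr 1
      ring
    have h6 : n ≤ (S ++ pw (w b) (cnt n w S b i)).length - i * n := by
      rw [h1, List.length_drop] at h3
      exact h3
    rw [cnt]
    by_cases hb : ((sf n w)^[i] S).headI = b
    · rw [if_pos hb, pw_succ', ← List.append_assoc]
      rw [hb] at h5
      refine ⟨h5, ?_⟩
      rw [List.length_append, Nat.succ_mul]
      omega
    · have hb' : ((sf n w)^[i] S).headI = !b := by
        revert hb
        cases ((sf n w)^[i] S).headI <;> cases b <;> simp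
      rw [if_neg hb, Nat.add_zero (cnt n w S b i)]
      rw [hb', he, List.append_nil] at h5
      refine ⟨h5, ?_⟩
      rw [Nat.succ_mul]
      omega

include hal he in
theorem letter (hn : 0 < n) {i : ℕ} (hi : i < k) :
    (S ++ pw (w b) (cnt n w S b k))[i * n]? = some ((sf n w)^[i] S).headI ∧
      i * n < S.length + cnt n w S b k * (w b).length := by
  obtain ⟨h1, h2⟩ := state w S b hal he hi.le
  have h3 := hal i hi
  obtain ⟨d, hd⟩ := Nat.exists_eq_add_of_le (cnt_mono (n := n) w S b hi.le)
  have h4 : i * n < (S ++ pw (w b) (cnt n w S b i)).length := by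
    rw [h1, List.length_drop] at h3
    omega
  rw [hd, pw_add, ← List.append_assoc]
  refine ⟨?_, ?_⟩
  · rw [List.getElem?_append_left h4]
    have h5 : ∀ (X : List Bool) (p : ℕ), p < X.length → X[p]? = some (X.drop p).headI := by
      intro X p hp
      rw [List.drop_eq_getElem_cons hp, List.getElem?_eq_getElem hp]
      rfl
    rw [h5 _ _ h4, ← h1]
  · rw [List.length_append, pw_length] at h4
    rw [Nat.add_mul]
    omega

include hal he in
theorem cnt_shift (hn : 0 < n) {i : ℕ} (h1 : S.length ≤ i) (h2 : i + (w b).length ≤ k) :
    cnt n w S b (i + (w b).length) + cnt n w S b S.length =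
      cnt n w S b i + cnt n w S b (S.length + (w b).length) := by
  induction i, h1 using Nat.le_induction with
  | base => ring
  | succ i hi ih =>
    have h3 := ih (by omega)
    have e1 : i + 1 + (w b).length = (i + (w b).length) + 1 := by ring
    rw [e1, cnt, cnt]
    obtain ⟨h4, -⟩ := letter w S b hal he hn (i := i) (by omega)
    obtain ⟨h5, h6⟩ := letter w S b hal he hn (i := i + (w b).length) (by omega)
    have e2 : (i + (w b).length) * n = i * n + n * (w b).length := by ring
    rw [e2] at h5 h6
    have h7 : S.length ≤ i * n := hi.trans (Nat.le_mul_of_pos_right _ hn)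
    rw [tape_periodic_mul S (w b) _ _ _ h7 h6, h4] at h5
    rw [Option.some.inj h5]
    omega

end run

/-- The bound for the number of steps. -/
def bd (s m : ℕ) : ℕ := (s + m) + m * (s + (s + m) * m)

theorem le_bd {n : ℕ} (hn : 0 < n) (w : Bool → List Bool) (S : List Bool) (b : Bool) {k : ℕ}
    (hal : ∀ i < k, n ≤ ((sf n w)^[i] S).length) (he : w (!b) = [])
    (hk : (sf n w)^[k] S = []) : k ≤ bd S.length (w b).length := by
  unfold bd
  by_cases hk1 : k < S.length + (w b).length
  · omega
  by_cases hm : (w b).length = 0
  · rcases k with _ | k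
    · omega
    have h1 := hal k (by omega)
    obtain ⟨h2, h3⟩ := state w S b hal he (i := k) (by omega)
    rw [h2, List.length_drop, List.length_append, pw_length, hm] at h1
    have h4 : k ≤ k * n := Nat.le_mul_of_pos_right _ hn
    omega
  -- the length as an integer
  set m := (w b).length with hm'
  have hL : ∀ i ≤ k, (((sf n w)^[i] S).length : ℤ) =
      S.length + cnt n w S b i * m - i * n := by
    intro i hi
    obtain ⟨h2, h3⟩ := state w S b hal he hi
    rw [List.length_append, pw_length] at h3
    rw [h2, List.length_drop, List.length_append, pw_length, Nat.cast_sub h3]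
    push_cast
    ring
  obtain ⟨δ, hδ⟩ : ∃ δ : ℤ, δ = (cnt n w S b (S.length + m) - cnt n w S b S.length : ℤ) * m -
      m * n := ⟨_, rfl⟩
  have hs : ∀ i, S.length ≤ i → i + m ≤ k →
      (((sf n w)^[i + m] S).length : ℤ) = ((sf n w)^[i] S).length + δ := by
    intro i h1 h2
    have h3 := cnt_shift w S b hal he hn h1 h2
    rw [hL _ h2, hL i (by omega), hδ]
    have h4 : (cnt n w S b (i + m) : ℤ) + cnt n w S b S.length =
        cnt n w S b i + cnt n w S b (S.length + m) := by exact_mod_cast h3
    have h5 : (cnt n w S b (i + m) : ℤ) = cnt n w S b i + cnt n w S b (S.length + m) -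
        cnt n w S b S.length := by linarith
    rw [h5]
    push_cast
    ring
  have hs' : ∀ j i, S.length ≤ i → i + j * m ≤ k →
      (((sf n w)^[i + j * m] S).length : ℤ) = ((sf n w)^[i] S).length + j * δ := by
    intro j
    induction j with
    | zero => intro i _ _; simp
    | succ j ih =>
      intro i h1 h2
      rw [Nat.succ_mul] at h2
      rw [Nat.succ_mul, ← Nat.add_assoc, hs (i + j * m) (by omega) (by omega),
        ih i h1 (by omega)]
      push_cast
      ring
  -- the decomposition of `k`
  obtain ⟨i, j, hi1, hi2, hij⟩ : ∃ i j, S.length ≤ i ∧ i < S.length + m ∧ i + j * m = k := by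
    refine ⟨S.length + (k - S.length) % m, (k - S.length) / m, by omega, ?_, ?_⟩
    · have := Nat.mod_lt (k - S.length) (Nat.pos_of_ne_zero hm)
      omega
    · have := Nat.mod_add_div (k - S.length) m
      rw [Nat.mul_comm ((k - S.length) / m)]
      omega
  rcases Nat.eq_zero_or_pos j with rfl | hj
  · omega
  have h1 := hs' j i hi1 hij.le
  rw [hij, hk] at h1
  have h2 : i < k := by
    have : 0 < j * m := Nat.mul_pos hj (Nat.pos_of_ne_zero hm)
    omega
  have h3 := hal i h2
  have h4 : (1 : ℤ) ≤ ((sf n w)^[i] S).length := by exact_mod_cast le_trans hn h3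
  have h5 := hL i h2.le
  have h6 : (cnt n w S b i : ℤ) ≤ i := by exact_mod_cast cnt_le w S b i
  have h7 : (((sf n w)^[i] S).length : ℤ) ≤ S.length + i * m := by
    rw [h5]
    have h8 : (cnt n w S b i : ℤ) * m ≤ i * m := by
      exact mul_le_mul_of_nonneg_right h6 (by positivity)
    have h9 : (0 : ℤ) ≤ i * n := by positivity
    linarith
  have hj' : (1 : ℤ) ≤ j := by exact_mod_cast hj
  simp only [List.length_nil, Nat.cast_zero] at h1
  have h8 : δ ≤ -1 := by
    by_contra hcon
    have : (0 : ℤ) ≤ δ := by omega
    have : (0 : ℤ) ≤ j * δ := by positivity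
    linarith
  have h9 : (j : ℤ) ≤ S.length + i * m := by nlinarith
  have h10 : j ≤ S.length + i * m := by exact_mod_cast h9
  have h11 : i * m ≤ (S.length + m) * m := Nat.mul_le_mul_right _ hi2.le
  have h12 : j * m ≤ (S.length + (S.length + m) * m) * m :=
    Nat.mul_le_mul_right _ (by omega)
  rw [← hij, Nat.mul_comm m]
  omega

theorem main {n : ℕ} (hn : 0 < n) (w : Bool → List Bool) (S : List Bool) :
    ReflTransGen (TStep n w) S [] ↔
      (sf n w)^[bd S.length ((w false).length + (w true).length)] S = [] := by
  rw [reach_iff hn]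
  constructor
  · intro hex
    classical
    let k := Nat.find hex
    have hk : (sf n w)^[k] S = [] := Nat.find_spec hex
    have hmin : ∀ i < k, (sf n w)^[i] S ≠ [] := fun i hi => Nat.find_min hex hi
    have hstuck : ∀ i, ¬ n ≤ ((sf n w)^[i] S).length → ∀ j,
        (sf n w)^[i + j] S = (sf n w)^[i] S := by
      intro i hi j
      induction j with
      | zero => rfl
      | succ j ih =>
        rw [← Nat.add_assoc, Function.iterate_succ_apply', ih, sf, if_neg hi]
    have hal : ∀ i < k, n ≤ ((sf n w)^[i] S).length := by
      intro i hi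
      by_contra hc
      have h1 := hstuck i hc (k - i)
      rw [show i + (k - i) = k by omega, hk] at h1
      exact hmin i hi h1.symm
    have hle : k ≤ bd S.length ((w false).length + (w true).length) := by
      rcases Nat.eq_zero_or_pos k with h0 | h0
      · rw [h0]; exact Nat.zero_le _
      obtain ⟨l, hl⟩ : ∃ l, k = l + 1 := ⟨k - 1, by omega⟩
      have h1 := hk
      have h2 := hal l (by omega)
      rw [hl, Function.iterate_succ_apply', sf, if_pos h2] at h1
      have h3 := congrArg List.length h1
      rw [List.length_drop, List.length_append, List.length_nil] at h3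
      have h4 : w ((sf n w)^[l] S).headI = [] := List.eq_nil_of_length_eq_zero (by omega)
      have h5 := le_bd hn w S (!((sf n w)^[l] S).headI) hal (by rw [Bool.not_not]; exact h4) hk
      refine h5.trans (le_of_eq ?_)
      congr 1
      revert h4
      cases ((sf n w)^[l] S).headI <;> intro h4 <;> simp [h4]
    obtain ⟨d, hd⟩ := Nat.exists_eq_add_of_le hle
    rw [hd, Nat.add_comm, Function.iterate_add_apply, hk, iter_nil hn]
  · intro h
    exact ⟨_, h⟩

theorem drop_eq_iterate (l : List Bool) (n : ℕ) : l.drop n = List.tail^[n] l := by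
  induction n generalizing l with
  | zero => rfl
  | succ n ih =>
    rw [Function.iterate_succ_apply, ← ih, List.drop_one.symm, List.drop_drop, Nat.add_comm]

/-- In the literal convention (words shorter than `nu` are not rewritten) it is decidable whether
the empty word is reached. -/
theorem literal_decidable (nu : ℕ) (h : 0 < nu) :
    ComputablePred (fun q : (List Bool × List Bool) × List Bool =>
      Relation.ReflTransGen (TStep nu (fun b => bif b then q.1.2 else q.1.1)) q.2 []) := by
  have e : ∀ q : (List Bool × List Bool) × List Bool,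
      Relation.ReflTransGen (TStep nu (fun b => bif b then q.1.2 else q.1.1)) q.2 [] ↔
      (sf nu (fun b => bif b then q.1.2 else q.1.1))^[bd q.2.length
        (q.1.1.length + q.1.2.length)] q.2 = [] := fun q => main h _ q.2
  have hdrop : Primrec fun l : List Bool => l.drop nu := by
    simp only [drop_eq_iterate]
    exact Primrec.nat_iterate (Primrec.const nu) Primrec.id
      ((Primrec.list_tail.comp Primrec.snd).to₂)
  have hsf : Primrec₂ fun (q : (List Bool × List Bool) × List Bool) (S : List Bool) =>
      sf nu (fun b => bif b then q.1.2 else q.1.1) S := by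
    unfold sf
    refine Primrec.ite (PrimrecRel.comp Primrec.nat_le (Primrec.const nu)
      (Primrec.list_length.comp Primrec.snd)) (hdrop.comp (Primrec.list_append.comp Primrec.snd
        (Primrec.cond (Primrec.list_headI.comp Primrec.snd)
          (Primrec.snd.comp (Primrec.fst.comp Primrec.fst))
          (Primrec.fst.comp (Primrec.fst.comp Primrec.fst))))) Primrec.snd
  have hbd : Primrec fun q : (List Bool × List Bool) × List Bool =>
      bd q.2.length (q.1.1.length + q.1.2.length) := by
    unfold bd
    have hs : Primrec fun q : (List Bool × List Bool) × List Bool => q.2.length :=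
      Primrec.list_length.comp Primrec.snd
    have hm : Primrec fun q : (List Bool × List Bool) × List Bool =>
        q.1.1.length + q.1.2.length := Primrec.nat_add.comp
      (Primrec.list_length.comp (Primrec.fst.comp Primrec.fst))
      (Primrec.list_length.comp (Primrec.snd.comp Primrec.fst))
    have hsm := Primrec.nat_add.comp hs hm
    exact Primrec.nat_add.comp hsm (Primrec.nat_mul.comp hm (Primrec.nat_add.comp hs
      (Primrec.nat_mul.comp hsm hm)))
  have hit := Primrec.nat_iterate hbd Primrec.snd hsf
  have hp : PrimrecPred fun q : (List Bool × List Bool) × List Bool =>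
      (sf nu (fun b => bif b then q.1.2 else q.1.1))^[bd q.2.length
        (q.1.1.length + q.1.2.length)] q.2 = [] :=
    PrimrecRel.comp Primrec.eq hit (Primrec.const [])
  have hp' := hp.of_eq fun q => (e q).symm
  obtain ⟨hdec, hprim⟩ := hp'
  exact ⟨hdec, hprim.to_comp⟩

end Pool.Agent.W5h69.Tag.Literal
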