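import Pool.Agent.H97.Tag.Defs

/-!
# Aligned tag systems simulate ceiling machines

A ceiling machine has configurations `(q, N, M)` with `N ≥ 1`.  In each step `N` is replaced by
`N' = ⌈N / σ⌉`, and the digit `ρ = σ N' - N` and the state `q` determine the new state and whether
`M` is replaced by `α M + β` or the new configuration is `(q', N' + α M + β, 0)`.
-/

set_option autoImplicit false

namespace Pool.Agent.W5h69.Tag

open Pool.Agent.H97.Tag List

/-- Actions of a ceiling machine. -/
inductive Act (Q : Type)
  | stay (q : Q) (α β : ℕ)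
  | swap (q : Q) (α β : ℕ)
  | halt

/-- The digit `ρ`. -/
def dig (σ N : ℕ) : ℕ := (σ - N % σ) % σ

/-- The quotient `N'`. -/
def quo (σ N : ℕ) : ℕ := (N + dig σ N) / σ

theorem dig_lt {σ : ℕ} (hσ : 2 ≤ σ) (N : ℕ) : dig σ N < σ := Nat.mod_lt _ (by omega)

theorem quo_spec {σ : ℕ} (hσ : 2 ≤ σ) (N : ℕ) : N + dig σ N = σ * quo σ N := by
  have h : σ ∣ N + dig σ N := by
    unfold dig
    have h1 := Nat.mod_lt N (show 0 < σ by omega)
    have h2 := Nat.div_add_mod N σ
    rcases Nat.eq_zero_or_pos (N % σ) with h3 | h3
    · rw [h3, Nat.sub_zero, Nat.mod_self, add_zero]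
      exact Nat.dvd_of_mod_eq_zero h3
    · rw [Nat.mod_eq_of_lt (show σ - N % σ < σ by omega)]
      refine ⟨N / σ + 1, ?_⟩
      rw [mul_add, mul_one]
      omega
  unfold quo
  rw [Nat.mul_div_cancel' h]

/-- Configurations. -/
structure Cfg (Q : Type) where
  q : Q
  N : ℕ
  M : ℕ

/-- One step of a ceiling machine. -/
def mstep {Q : Type} (σ : ℕ) (δ : Q → ℕ → Act Q) (c : Cfg Q) : Option (Cfg Q) :=
  match δ c.q (dig σ c.N) with
  | .stay q' α β => some ⟨q', quo σ c.N, α * c.M + β⟩
  | .swap q' α β => some ⟨q', quo σ c.N + (α * c.M + β), 0⟩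
  | .halt => none

/-- Letters of the tag system. -/
inductive Lt (Q : Type)
  | x
  | y
  | b (T : Fin 5) (q : Q) (i : ℕ)

/-- The block `[T, q]`. -/
def blk {Q : Type} (σ : ℕ) (T : Fin 5) (q : Q) : List (Lt Q) := (List.range σ).map (Lt.b T q)

/-- `k` copies of a word. -/
def rep {A : Type} (k : ℕ) (u : List A) : List A := (List.replicate k u).flatten

/-- The productions. -/
def wt {Q : Type} (σ : ℕ) (δ : Q → ℕ → Act Q) : Lt Q → List (Option (Lt Q))
  | .x => [some Lt.x]
  | .y => [some Lt.y]
  | .b T q i => match δ q i with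
    | .stay q' α β => (match T with
      | 0 => blk σ 0 q' ++ rep β (blk σ 1 q')
      | 1 => rep α (blk σ 1 q')
      | 2 => blk σ 2 q'
      | 3 => rep α (blk σ 3 q')
      | _ => rep β (blk σ 3 q') ++ blk σ 4 q' ++ List.replicate i Lt.y).map some
    | .swap q' α β => (match T with
      | 0 => List.replicate β Lt.x
      | 1 => List.replicate α Lt.x
      | 2 => blk σ 0 q' ++ blk σ 2 q' ++ blk σ 4 q'
      | 3 => List.replicate ((σ - 1) * α) Lt.y
      | _ => List.replicate (i + (σ - 1) * β) Lt.y).map some
    | .halt => match T with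
      | 0 => (List.replicate (σ - 1) Lt.x).map some ++ [none]
      | 1 => (blk σ 1 q).map some
      | 2 => (blk σ 2 q).map some
      | 3 => (blk σ 3 q).map some
      | _ => (blk σ 4 q ++ List.replicate i Lt.y).map some

/-- The word of a configuration. -/
def conf {Q : Type} (σ : ℕ) (c : Cfg Q) : List (Lt Q) :=
  List.replicate c.N .x ++ (blk σ 0 c.q ++ (rep c.M (blk σ 1 c.q) ++ (blk σ 2 c.q ++
    (rep c.M (blk σ 3 c.q) ++ (blk σ 4 c.q ++ List.replicate ((σ - 1) * c.N) .y)))))

section rd

variable {A B : Type} {σ : ℕ} (w : A → List B)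

theorem rd_skip (s : ℕ) : ∀ (u v : List A), u.length ≤ s →
    rd σ w s (u ++ v) = rd σ w (s - u.length) v := by
  induction s with
  | zero =>
    intro u v hu
    have : u = [] := List.eq_nil_of_length_eq_zero (by omega)
    subst this
    rfl
  | succ s ih =>
    intro u v hu
    cases u with
    | nil => simp
    | cons a u =>
      simp only [List.length_cons] at hu
      rw [List.cons_append]
      show rd σ w s (u ++ v) = _
      rw [ih u v (by omega), List.length_cons]
      congr 1
      omega

/-- A block of length `σ` read from the offset `s`. -/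
theorem rd_one (_hσ : 2 ≤ σ) {s : ℕ} (_hs : s < σ) (u₁ u₂ : List A) (a : A) (v : List A)
    (h1 : u₁.length = s) (h2 : u₁.length + 1 + u₂.length = σ) :
    rd σ w s (u₁ ++ a :: u₂ ++ v) = w a ++ rd σ w s v := by
  rw [List.append_assoc, rd_skip w s u₁ _ (by omega), h1, Nat.sub_self, List.cons_append]
  show w a ++ rd σ w (σ - 1) (u₂ ++ v) = _
  rw [rd_skip w (σ - 1) u₂ v (by omega)]
  congr 2
  omega

theorem rd_block (hσ : 2 ≤ σ) {s : ℕ} (hs : s < σ) (u : List A) (hu : u.length = σ)
    (v : List A) : rd σ w s (u ++ v) = w (u[s]'(by omega)) ++ rd σ w s v := by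
  have h : u = u.take s ++ u[s]'(by omega) :: u.drop (s + 1) := by
    rw [List.getElem_cons_drop]
    exact (List.take_append_drop s u).symm
  conv_lhs => rw [h]
  refine rd_one w hσ hs _ _ _ v (by rw [List.length_take]; omega) ?_
  rw [List.length_take, List.length_drop]
  omega

theorem rd_rep (hσ : 2 ≤ σ) {s : ℕ} (hs : s < σ) (u : List A) (hu : u.length = σ) (k : ℕ)
    (v : List A) : rd σ w s (rep k u ++ v) = rep k (w (u[s]'(by omega))) ++ rd σ w s v := by
  induction k with
  | zero => rfl
  | succ k ih =>
    show rd σ w s ((List.replicate (k + 1) u).flatten ++ v) =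
      (List.replicate (k + 1) (w (u[s]'(by omega)))).flatten ++ _
    rw [List.replicate_succ, List.flatten_cons, List.append_assoc, rd_block w hσ hs u hu,
      List.replicate_succ, List.flatten_cons, List.append_assoc]
    congr 1

theorem rep_replicate (k m : ℕ) (a : A) :
    rep k (List.replicate m a) = List.replicate (k * m) a := by
  induction k with
  | zero => simp [rep]
  | succ k ih =>
    show (List.replicate (k + 1) (List.replicate m a)).flatten = _
    rw [List.replicate_succ, List.flatten_cons]
    have : (List.replicate k (List.replicate m a)).flatten = List.replicate (k * m) a := ih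
    rw [this, ← List.replicate_add]
    congr 1
    ring

theorem rd_replicate (hσ : 2 ≤ σ) {s : ℕ} (hs : s < σ) (a : A) (k : ℕ) (v : List A) :
    rd σ w s (List.replicate (k * σ) a ++ v) = rep k (w a) ++ rd σ w s v := by
  rw [← rep_replicate, rd_rep w hσ hs _ (by simp)]
  simp

theorem rd_first (hσ : 2 ≤ σ) {N : ℕ} (hN : 0 < N) (a : A) (v : List A) :
    rd σ w 0 (List.replicate N a ++ v) = rep (quo σ N) (w a) ++ rd σ w (dig σ N) v := by
  have h1 := quo_spec hσ N
  have h2 := dig_lt hσ N
  have h3 : 0 < quo σ N := by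
    rcases Nat.eq_zero_or_pos (quo σ N) with h | h
    · rw [h, mul_zero] at h1; omega
    · exact h
  obtain ⟨k, hk⟩ : ∃ k, quo σ N = k + 1 := ⟨quo σ N - 1, by omega⟩
  have h4 : N = k * σ + (σ - dig σ N) := by
    rw [hk, mul_add, mul_one, mul_comm] at h1
    omega
  have h5 : σ - dig σ N = (σ - dig σ N - 1) + 1 := by omega
  conv_lhs => rw [h4, List.replicate_add, List.append_assoc, rd_replicate w hσ (by omega), h5,
    List.replicate_succ, List.cons_append]
  rw [hk]
  show rep k (w a) ++ (w a ++ rd σ w (σ - 1) (List.replicate (σ - dig σ N - 1) a ++ v)) = _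
  rw [rd_skip w (σ - 1) _ v (by simp; omega), List.length_replicate,
    show σ - 1 - (σ - dig σ N - 1) = dig σ N by omega]
  rw [← List.append_assoc]
  congr 1
  unfold rep
  rw [List.replicate_succ', List.flatten_append]
  simp

theorem rd_last (hσ : 2 ≤ σ) {N : ℕ} (_hN : 0 < N) (a : A) :
    rd σ w (dig σ N) (List.replicate ((σ - 1) * N) a) = rep (N - quo σ N) (w a) := by
  have h1 := quo_spec hσ N
  have h2 := dig_lt hσ N
  have h3 : quo σ N ≤ N := by
    by_contra h
    push Not at h
    have : σ * (N + 1) ≤ σ * quo σ N := Nat.mul_le_mul_left _ h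
    have h5 : 2 * N ≤ σ * N := Nat.mul_le_mul_right _ hσ
    rw [mul_add, mul_one] at this
    omega
  have h4 : (σ - 1) * N = (N - quo σ N) * σ + dig σ N := by
    obtain ⟨s, rfl⟩ : ∃ s, σ = s + 1 := ⟨σ - 1, by omega⟩
    obtain ⟨d, hd⟩ : ∃ d, N = quo (s + 1) N + d := ⟨N - quo (s + 1) N, by omega⟩
    have h6 : N - quo (s + 1) N = d := by omega
    rw [h6, Nat.add_sub_cancel]
    have h7 : (s + 1) * N = (s + 1) * quo (s + 1) N + (s + 1) * d := by
      conv_lhs => rw [hd]
      rw [mul_add]
    have h8 : (s + 1) * N = s * N + N := by ring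
    have h9 : (s + 1) * d = d * (s + 1) := mul_comm _ _
    omega
  rw [h4, List.replicate_add, rd_replicate w hσ h2]
  have := rd_skip (σ := σ) w (dig σ N) (List.replicate (dig σ N) a) [] (by simp)
  rw [List.append_nil] at this
  rw [this]
  simp [rd]

end rd

variable {Q : Type} {σ : ℕ} {δ : Q → ℕ → Act Q}

theorem blk_length (T : Fin 5) (q : Q) : (blk σ T q).length = σ := by simp [blk]

/-- The result of reading the word of a configuration. -/
theorem rd_conf (hσ : 2 ≤ σ) (c : Cfg Q) (hN : 0 < c.N) (w : Lt Q → List (Option (Lt Q))) :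
    rd σ w 0 (conf σ c) = rep (quo σ c.N) (w .x) ++ (w (.b 0 c.q (dig σ c.N)) ++
      (rep c.M (w (.b 1 c.q (dig σ c.N))) ++ (w (.b 2 c.q (dig σ c.N)) ++
      (rep c.M (w (.b 3 c.q (dig σ c.N))) ++ (w (.b 4 c.q (dig σ c.N)) ++
      rep (c.N - quo σ c.N) (w .y)))))) := by
  have h2 := dig_lt hσ c.N
  have hb : ∀ T : Fin 5, (blk σ T c.q)[dig σ c.N]'(by rw [blk_length]; exact h2) =
      .b T c.q (dig σ c.N) := by
    intro T
    simp [blk]
  unfold conf
  rw [rd_first w hσ hN, rd_block w hσ h2 _ (blk_length _ _), rd_rep w hσ h2 _ (blk_length _ _),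
    rd_block w hσ h2 _ (blk_length _ _), rd_rep w hσ h2 _ (blk_length _ _),
    rd_block w hσ h2 _ (blk_length _ _), rd_last w hσ hN]
  simp only [hb]

theorem rep_some {A : Type} (k : ℕ) (u : List A) :
    rep k (u.map some) = (rep k u).map some := by
  unfold rep
  rw [List.map_flatten, List.map_replicate]

theorem rep_single {A : Type} (k : ℕ) (a : A) : rep k [a] = List.replicate k a := by
  have := rep_replicate k 1 a
  rwa [mul_one] at this

theorem rep_rep {A : Type} (k m : ℕ) (u : List A) : rep k (rep m u) = rep (k * m) u := by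
  induction k with
  | zero => simp [rep]
  | succ k ih =>
    unfold rep at ih ⊢
    rw [List.replicate_succ, List.flatten_cons, ih, add_mul, one_mul, add_comm (k * m) m,
      List.replicate_add, List.flatten_append]

theorem rep_add {A : Type} (k m : ℕ) (u : List A) : rep (k + m) u = rep k u ++ rep m u := by
  unfold rep
  rw [List.replicate_add, List.flatten_append]

theorem conf_length (hσ : 2 ≤ σ) (c : Cfg Q) : σ ∣ (conf σ c).length := by
  have h1 : ∀ (k : ℕ) (T : Fin 5) (q : Q), (rep k (blk σ T q)).length = k * σ := by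
    intro k T q
    unfold rep
    rw [List.length_flatten, List.map_replicate, blk_length, List.sum_replicate, smul_eq_mul]
  unfold conf
  simp only [List.length_append, List.length_replicate, blk_length, h1]
  have h2 : c.N + (σ - 1) * c.N = σ * c.N := by
    obtain ⟨s, rfl⟩ : ∃ s, σ = s + 1 := ⟨σ - 1, by omega⟩
    rw [Nat.add_sub_cancel]; ring
  refine ⟨c.N + 3 + 2 * c.M, ?_⟩
  have h3 : σ * (c.N + 3 + 2 * c.M) = σ * c.N + σ * 3 + 2 * (c.M * σ) := by ring
  rw [h3, ← h2]
  ring

theorem conf_ne_nil (c : Cfg Q) (hN : 0 < c.N) : conf σ c ≠ [] := by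
  unfold conf
  intro h
  have := congrArg List.length h
  simp only [List.length_append, List.length_replicate, List.length_nil] at this
  omega

/-- The numbers of a step. -/
theorem y_count (hσ : 2 ≤ σ) {N : ℕ} (_hN : 0 < N) :
    dig σ N + (N - quo σ N) = (σ - 1) * quo σ N := by
  have h1 := quo_spec hσ N
  have h2 := dig_lt hσ N
  have h3 : quo σ N ≤ N := by
    by_contra h
    push Not at h
    have : σ * (N + 1) ≤ σ * quo σ N := Nat.mul_le_mul_left _ h
    have h5 : 2 * N ≤ σ * N := Nat.mul_le_mul_right _ hσ
    rw [mul_add, mul_one] at this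
    omega
  obtain ⟨s, rfl⟩ : ∃ s, σ = s + 1 := ⟨σ - 1, by omega⟩
  rw [Nat.add_sub_cancel]
  have h4 : (s + 1) * quo (s + 1) N = s * quo (s + 1) N + quo (s + 1) N := by ring
  omega

/-- The tag system simulates the steps of the machine. -/
theorem step_conf (hσ : 2 ≤ σ) {c c' : Cfg Q} (hN : 0 < c.N) (h : mstep σ δ c = some c') :
    Step σ (wt σ δ) (conf σ c) (conf σ c') := by
  refine ⟨conf_ne_nil c hN, conf_length hσ c, conf_length hσ c', ?_⟩
  rw [rd_conf hσ c hN]
  unfold mstep at h
  have hy := y_count hσ hN
  cases hd : δ c.q (dig σ c.N) with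
  | halt => rw [hd] at h; simp at h
  | stay q' α β =>
    rw [hd] at h
    simp only [Option.some.injEq] at h
    subst h
    simp only [wt, hd]
    rw [show ([some Lt.x] : List (Option (Lt Q))) = [Lt.x].map some from rfl,
      show ([some Lt.y] : List (Option (Lt Q))) = [Lt.y].map some from rfl]
    simp only [rep_some, ← List.map_append]
    congr 1
    unfold conf
    simp only [rep_single, rep_rep]
    rw [show α * c.M + β = β + c.M * α by ring]
    conv_rhs => rw [rep_add β (c.M * α) (blk σ 1 q'), add_comm β (c.M * α),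
      rep_add (c.M * α) β (blk σ 3 q'), ← hy, List.replicate_add]
    simp only [List.append_assoc]
  | swap q' α β =>
    rw [hd] at h
    simp only [Option.some.injEq] at h
    subst h
    simp only [wt, hd]
    rw [show ([some Lt.x] : List (Option (Lt Q))) = [Lt.x].map some from rfl,
      show ([some Lt.y] : List (Option (Lt Q))) = [Lt.y].map some from rfl]
    simp only [rep_some, ← List.map_append]
    congr 1
    unfold conf
    simp only [rep_single, rep_replicate]
    have e1 : (σ - 1) * (quo σ c.N + (α * c.M + β)) =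
        c.M * ((σ - 1) * α) + ((dig σ c.N + (σ - 1) * β) + (c.N - quo σ c.N)) := by
      rw [mul_add, ← hy]
      ring
    have e2 : quo σ c.N + (α * c.M + β) = quo σ c.N + (β + c.M * α) := by ring
    conv_rhs => rw [e1, e2, List.replicate_add, List.replicate_add, List.replicate_add,
      List.replicate_add]
    simp only [List.append_assoc, rep, List.replicate_zero, List.flatten_nil, List.nil_append]

/-- The configurations at which the machine halts are final. -/
theorem final_conf (hσ : 2 ≤ σ) {c : Cfg Q} (hN : 0 < c.N) (h : mstep σ δ c = none)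
    (hq : quo σ c.N = 1) : Final σ (wt σ δ) (conf σ c) := by
  refine ⟨conf_ne_nil c hN, conf_length hσ c, ?_⟩
  rw [rd_conf hσ c hN]
  unfold mstep at h
  have hy := y_count hσ hN
  cases hd : δ c.q (dig σ c.N) with
  | stay q' α β => rw [hd] at h; simp at h
  | swap q' α β => rw [hd] at h; simp at h
  | halt =>
    refine ⟨List.replicate σ .x, rep c.M (blk σ 1 c.q) ++ (blk σ 2 c.q ++
      (rep c.M (blk σ 3 c.q) ++ (blk σ 4 c.q ++ List.replicate (dig σ c.N) .y ++
      List.replicate (c.N - quo σ c.N) .y))), by simp, ?_, ?_⟩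
    · have h1 : ∀ (k : ℕ) (T : Fin 5) (q : Q), (rep k (blk σ T q)).length = k * σ := by
        intro k T q
        unfold rep
        rw [List.length_flatten, List.map_replicate, blk_length, List.sum_replicate, smul_eq_mul]
      simp only [List.length_append, List.length_replicate, blk_length, h1]
      rw [hq, mul_one] at hy
      refine ⟨4 + 2 * c.M, ?_⟩
      have h3 : σ * (4 + 2 * c.M) = σ * 4 + 2 * (c.M * σ) := by ring
      rw [h3]
      omega
    · simp only [wt, hd, hq]
      rw [show ([some Lt.x] : List (Option (Lt Q))) = [Lt.x].map some from rfl,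
        show ([some Lt.y] : List (Option (Lt Q))) = [Lt.y].map some from rfl]
      simp only [rep_some, rep_single, List.map_append, List.append_assoc]
      have : (List.replicate σ (Lt.x : Lt Q)).map some = (List.replicate 1 Lt.x).map some ++
          (List.replicate (σ - 1) Lt.x).map some := by
        rw [← List.map_append, ← List.replicate_add, show 1 + (σ - 1) = σ by omega]
      rw [this]
      simp only [List.append_assoc, List.cons_append, List.nil_append]

end Pool.Agent.W5h69.Tag
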