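import Pool.Agent.H97.Pcp.Defs

/-!
# Fixed words start with `1`
-/

set_option autoImplicit false

namespace Pool.Agent.W5h69.Tag.Head

open Pool.Agent.H97.Tag Pool.Agent.H97.Pcp Finset

theorem rd_drop {A B : Type*} (n : ℕ) (w : A → List B) : ∀ (s : ℕ) (u : List A),
    rd n w s u = rd n w 0 (u.drop s)
  | 0, _ => rfl
  | _ + 1, [] => rfl
  | s + 1, _ :: u => by
      rw [rd, rd_drop n w s u]
      rfl

/-- The sweep over a word of length `ν m` reads the letters at the positions `ν k`. -/
theorem rd_flat {A B : Type*} {ν : ℕ} (hν : 1 ≤ ν) (w : A → List B) (d : A) :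
    ∀ (m : ℕ) (x : List A), x.length = ν * m →
      rd ν w 0 x = (List.range m).flatMap (fun k => w (x.getD (ν * k) d)) := by
  intro m
  induction m with
  | zero =>
    intro x hx
    have : x = [] := List.eq_nil_of_length_eq_zero (by simpa using hx)
    subst this
    rfl
  | succ m ih =>
    intro x hx
    cases x with
    | nil =>
      have : 0 < ν * (m + 1) := Nat.mul_pos hν (Nat.succ_pos m)
      simp at hx
      omega
    | cons a u =>
      have hu : (u.drop (ν - 1)).length = ν * m := by
        rw [List.length_drop]
        rw [List.length_cons, Nat.mul_succ] at hx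
        omega
      rw [rd, rd_drop, ih _ hu, List.range_succ_eq_map, List.flatMap_cons, List.flatMap_map]
      congr 1
      apply List.flatMap_congr
      intro k _
      have h3 : (a :: u).getD (ν * k.succ) d = (u.drop (ν - 1)).getD (ν * k) d := by
        rw [List.getD_eq_getElem?_getD, List.getD_eq_getElem?_getD, List.getElem?_drop,
          show ν * k.succ = (ν - 1 + ν * k) + 1 by rw [Nat.mul_succ]; omega,
          List.getElem?_cons_succ]
      rw [h3]

/-- The length of the first `j` blocks. -/
def pos {B : Type*} (f : ℕ → List B) (j : ℕ) : ℕ := ∑ i ∈ range j, (f i).length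

theorem length_flat {B : Type*} (f : ℕ → List B) (m : ℕ) :
    ((List.range m).flatMap f).length = pos f m := by
  induction m with
  | zero => rfl
  | succ m ih =>
    rw [List.range_succ, List.flatMap_append, List.length_append, ih, pos, pos,
      sum_range_succ]
    simp

theorem get_flat {B : Type*} (f : ℕ → List B) (m : ℕ) {j o : ℕ} (hj : j < m)
    (ho : o < (f j).length) : ((List.range m).flatMap f)[pos f j + o]? = (f j)[o]? := by
  induction m with
  | zero => omega
  | succ m ih =>
    rw [List.range_succ, List.flatMap_append]
    rcases Nat.lt_or_eq_of_le (Nat.lt_succ_iff.1 hj) with h | h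
    · have h1 : pos f (j + 1) ≤ pos f m :=
        sum_le_sum_of_subset (range_mono h)
      have h2 : pos f (j + 1) = pos f j + (f j).length := sum_range_succ _ _
      rw [List.getElem?_append_left (by rw [length_flat]; omega), ih h]
    · subst h
      rw [List.getElem?_append_right (by rw [length_flat]; omega), length_flat,
        Nat.add_sub_cancel_left]
      simp

/-- A nonempty word which is its own image starts with `1`. -/
theorem head_true {ν : ℕ} (hν : 3 ≤ ν) {w1 : List Bool} (h1 : w1 ≠ [])
    (hE : (ν - 1) ∣ w1.length - 1)
    (hm : ∀ i, w1[i]? = some true → (ν - 1) ∣ i → i = 0) {s : List Bool} (hs : s ≠ [])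
    (hl : ν ∣ s.length) (hf : rd ν (rule w1) 0 s = s) : s[0]? = some true := by
  obtain ⟨n, hn⟩ := hl
  have hn0 : 0 < n := by
    rcases Nat.eq_zero_or_pos n with h | h
    · rw [h, Nat.mul_zero] at hn
      exact absurd (List.eq_nil_of_length_eq_zero hn) hs
    · exact h
  let a : ℕ → Bool := fun k => s.getD (ν * k) false
  let f : ℕ → List Bool := fun k => rule w1 (a k)
  have hflat : (List.range n).flatMap f = s := by
    rw [← rd_flat (by omega) (rule w1) false n s hn, hf]
  have hlen : pos f n = ν * n := by rw [← length_flat, hflat, hn]
  have hget : ∀ j o, j < n → o < (f j).length → s[pos f j + o]? = (f j)[o]? := by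
    intro j o hj ho
    have := get_flat f n hj ho
    rwa [hflat] at this
  -- the lengths of the blocks
  have hft : ∀ j, a j = true → f j = w1 := fun j hj => by
    simp only [f, hj, rule, cond_true]
  have hff : ∀ j, a j = false → f j = [false] := fun j hj => by
    simp only [f, hj, rule, cond_false]
  have hw : 1 ≤ w1.length := List.length_pos_iff.2 h1
  have hpos : ∀ j, ∃ c, pos f j = j + (w1.length - 1) * c := by
    intro j
    induction j with
    | zero => exact ⟨0, rfl⟩
    | succ j ih =>
      obtain ⟨c, hc⟩ := ih
      have h2 : pos f (j + 1) = pos f j + (f j).length := sum_range_succ _ _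
      cases h : a j with
      | false => exact ⟨c, by rw [h2, hff j h, hc]; simp; omega⟩
      | true =>
        refine ⟨c + 1, ?_⟩
        rw [h2, hft j h, hc, Nat.mul_succ]
        omega
  have hsucc : ∀ j, pos f (j + 1) = pos f j + (f j).length := fun j => sum_range_succ _ _
  have hgeta : ∀ j, j < n → s[ν * j]? = some (a j) := by
    intro j hj
    have hlt : ν * j < s.length := by
      rw [hn]
      exact Nat.mul_lt_mul_of_pos_left hj (by omega)
    simp only [a]
    rw [List.getD_eq_getElem?_getD, List.getElem?_eq_getElem hlt]
    rfl
  -- the key divisibility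
  have key : ∀ j, j < n → a j = true → pos f j ≤ ν * j → ν * j < pos f (j + 1) →
      ν * j = pos f j := by
    intro j hj ha hp1 hp2
    obtain ⟨o, ho⟩ := Nat.exists_eq_add_of_le hp1
    have ho' : o < (f j).length := by rw [hsucc] at hp2; omega
    have h2 := hget j o hj ho'
    rw [← ho, hgeta j hj, ha, hft j ha] at h2
    have h3 : (ν - 1) ∣ o := by
      obtain ⟨c, hc⟩ := hpos j
      have h4 : (ν - 1) ∣ (w1.length - 1) * c := Dvd.dvd.mul_right hE c
      have h5 : (ν - 1) * j = (w1.length - 1) * c + o := by
        have h6 : (ν - 1) * j + j = ν * j := by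
          rw [← Nat.succ_mul]
          congr 1
          omega
        omega
      have h6 : (ν - 1) ∣ (w1.length - 1) * c + o := by
        rw [← h5]
        exact Nat.dvd_mul_right _ _
      exact (Nat.dvd_add_right h4).1 h6
    have h7 := hm o h2.symm h3
    omega
  by_contra hs0
  have ha0 : a 0 = false := by
    cases h : a 0 with
    | false => rfl
    | true =>
      have := hgeta 0 hn0
      rw [h, Nat.mul_zero] at this
      exact absurd this hs0
  -- there is an active one
  have hex : ∃ j, j < n ∧ a j = true := by
    by_contra hno
    push Not at hno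
    have h2 : ∀ j ≤ n, pos f j = j := by
      intro j hj
      induction j with
      | zero => rfl
      | succ j ih =>
        have : a j = false := by
          cases h : a j with
          | false => rfl
          | true => exact absurd h (hno j (by omega))
        rw [hsucc, ih (by omega), hff j this]
        rfl
    have h3 := h2 n le_rfl
    rw [hlen] at h3
    nlinarith
  classical
  let j0 := Nat.find hex
  obtain ⟨hj0, haj0⟩ := Nat.find_spec hex
  have hmin : ∀ j < j0, a j = false := by
    intro j hj
    have h2 := Nat.find_min hex hj
    cases h : a j with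
    | false => rfl
    | true => exact absurd ⟨by omega, h⟩ h2
  have hj0pos : 0 < j0 := by
    rcases Nat.eq_zero_or_pos j0 with h | h
    · have : a j0 = true := haj0
      rw [h, ha0] at this
      exact absurd this (by simp)
    · exact h
  have hp0 : ∀ j ≤ j0, pos f j = j := by
    intro j hj
    induction j with
    | zero => rfl
    | succ j ih =>
      rw [hsucc, ih (by omega), hff j (hmin j (by omega))]
      rfl
  have hstep : ∀ k, j0 + k < n → pos f (j0 + k + 1) ≤ ν * (j0 + k) := by
    intro k
    induction k with
    | zero =>
      intro _
      by_contra hlt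
      push Not at hlt
      have h2 := hp0 j0 le_rfl
      have h3 := key j0 hj0 haj0 (by rw [h2]; exact Nat.le_mul_of_pos_left _ (by omega)) hlt
      rw [h2] at h3
      nlinarith
    | succ k ih =>
      intro hk
      have ih' := ih (by omega)
      by_contra hlt
      push Not at hlt
      have h2 : ν * (j0 + (k + 1)) = ν * (j0 + k) + ν := by ring
      have h3 := hsucc (j0 + (k + 1))
      have h4 : pos f (j0 + (k + 1)) ≤ ν * (j0 + k) := ih'
      have h5 : 1 < (f (j0 + (k + 1))).length := by omega
      have h6 : a (j0 + (k + 1)) = true := by
        cases h : a (j0 + (k + 1)) with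
        | true => rfl
        | false =>
          rw [hff _ h] at h5
          simp at h5
      have h7 := key _ hk h6 (by omega) hlt
      omega
  have h2 := hstep (n - 1 - j0) (by omega)
  rw [show j0 + (n - 1 - j0) = n - 1 by omega, Nat.sub_add_cancel hn0, hlen] at h2
  have h3 : ν * (n - 1) + ν = ν * n := by
    rw [← Nat.mul_succ]
    congr 1
    omega
  omega

end Pool.Agent.W5h69.Tag.Head
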