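import Pool.Agent.W5h69.Tag.Conf

/-!
# Ceiling machines simulate two-letter block queue systems

The letters `none` (an end mark) and `some s` are coded by numbers `e ℓ < k`, and a stack of letters
`L` (top first) by the number `mv L + 1`, where pushing the letter with code `s` replaces `m` by
`σ ^ (s + 2) m + σ ^ (s + 1) - 1`; it is read as `s + 1` digits `0` and one digit `σ - 1`.
-/

set_option autoImplicit false

namespace Pool.Agent.W5h69.Tag

open List StateTransition

/-- Modes of the machine. -/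
inductive Mode (S : Type)
  | a0
  | a1
  | a2 (x : S)
  | a3 (x y : S)
  | b0
  | b1

section

variable {S : Type} (σ k : ℕ) (e : Option S → Fin k)

/-- The factor for pushing a letter. -/
def pA (ℓ : Option S) : ℕ := σ ^ ((e ℓ : ℕ) + 2)

/-- The summand for pushing a letter. -/
def pB (ℓ : Option S) : ℕ := σ ^ ((e ℓ : ℕ) + 1) - 1

/-- The value of a stack. -/
def mv (L : List (Option S)) : ℕ := L.foldr (fun ℓ m => pA σ k e ℓ * m + pB σ k e ℓ) 0

/-- The factor for pushing several letters. -/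
def AA (L : List (Option S)) : ℕ := L.foldr (fun ℓ m => pA σ k e ℓ * m) 1

theorem mv_append (L L' : List (Option S)) :
    mv σ k e (L ++ L') = AA σ k e L * mv σ k e L' + mv σ k e L := by
  induction L with
  | nil => simp [mv, AA]
  | cons ℓ L ih =>
    have h1 : mv σ k e (ℓ :: L ++ L') = pA σ k e ℓ * mv σ k e (L ++ L') + pB σ k e ℓ := rfl
    have h2 : mv σ k e (ℓ :: L) = pA σ k e ℓ * mv σ k e L + pB σ k e ℓ := rfl
    have h3 : AA σ k e (ℓ :: L) = pA σ k e ℓ * AA σ k e L := rfl
    rw [h1, h2, h3, ih]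
    ring

theorem AA_pos (hσ : 2 ≤ σ) (L : List (Option S)) : 0 < AA σ k e L := by
  induction L with
  | nil => exact Nat.one_pos
  | cons ℓ L ih =>
    have h3 : AA σ k e (ℓ :: L) = pA σ k e ℓ * AA σ k e L := rfl
    rw [h3]
    exact Nat.mul_pos (Nat.pow_pos (by omega)) ih

theorem mv_cons (hσ : 2 ≤ σ) (ℓ : Option S) (L : List (Option S)) :
    mv σ k e (ℓ :: L) + 1 = σ ^ ((e ℓ : ℕ) + 1) * (σ * mv σ k e L + 1) := by
  have h2 : mv σ k e (ℓ :: L) = pA σ k e ℓ * mv σ k e L + pB σ k e ℓ := rfl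
  rw [h2]
  unfold pA pB
  have h3 : 0 < σ ^ ((e ℓ : ℕ) + 1) := Nat.pow_pos (by omega)
  have h4 : σ ^ ((e ℓ : ℕ) + 2) = σ ^ ((e ℓ : ℕ) + 1) * σ := pow_succ _ _
  rw [h4, mul_add, mul_one, mul_assoc]
  omega

theorem mv_cons_pos (hσ : 2 ≤ σ) (ℓ : Option S) (L : List (Option S)) :
    0 < mv σ k e (ℓ :: L) := by
  have h := mv_cons σ k e hσ ℓ L
  have h3 : 2 ≤ σ ^ ((e ℓ : ℕ) + 1) := by
    calc 2 ≤ σ := hσ
      _ = σ ^ 1 := (pow_one _).symm
      _ ≤ σ ^ ((e ℓ : ℕ) + 1) := Nat.pow_le_pow_right (by omega) (by omega)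
  have h4 : 2 * 1 ≤ σ ^ ((e ℓ : ℕ) + 1) * (σ * mv σ k e L + 1) :=
    Nat.mul_le_mul h3 (by omega)
  omega

/-- The next count. -/
def nx (j : Fin (k + 1)) : Fin (k + 1) := ⟨min (j.val + 1) k, by omega⟩

/-- The action at a letter which has been read: the new mode, and the factor and the summand for
the second number. -/
def la : Mode S → Option S → Mode S × ℕ × ℕ
  | .a0, _ => (.a1, 1, 0)
  | .a1, some x => (.a2 x, 1, 0)
  | .a2 x, some y => (.a3 x y, 1, 0)
  | .a3 x y, ℓ => (.a3 x y, pA σ k e ℓ, pB σ k e ℓ)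
  | .b0, _ => (.b1, 1, 0)
  | .b1, ℓ => (.b1, pA σ k e ℓ, pB σ k e ℓ)
  | m, _ => (m, 1, 0)

theorem la_spec (m : Mode S) (ℓ : Option S) : (la σ k e m ℓ).2 = (1, 0) ∨
    (la σ k e m ℓ).2 = (pA σ k e ℓ, pB σ k e ℓ) := by
  cases m <;> cases ℓ <;> simp [la]

variable [DecidableEq S] (d : ℕ → Option S) (P : S → S → List S) (κ : S)

/-- The transition function. -/
def del : Mode S × Fin (k + 1) → ℕ → Act (Mode S × Fin (k + 1)) := fun q i =>
  if i = 0 then .stay (q.1, nx k q.2) 1 0
  else if q.2.val = 0 then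
    match q.1 with
    | .a2 x => if x = κ then .halt else .stay (.a2 x, 0) 1 0
    | .a3 x y => .swap (.b0, 0) (AA σ k e (none :: (P x y).reverse.map some))
        (mv σ k e (none :: (P x y).reverse.map some))
    | .b1 => .swap (.a0, 0) (AA σ k e [none]) (mv σ k e [none])
    | m => .stay (m, 0) 1 0
  else
    .stay ((la σ k e q.1 (d (q.2.val - 1))).1, 0) (la σ k e q.1 (d (q.2.val - 1))).2.1
      (la σ k e q.1 (d (q.2.val - 1))).2.2

end

section run

theorem dig_mul {σ : ℕ} (_hσ : 2 ≤ σ) (X : ℕ) : dig σ (σ * X) = 0 := by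
  unfold dig
  rw [Nat.mul_mod_right, Nat.sub_zero, Nat.mod_self]

theorem quo_mul {σ : ℕ} (hσ : 2 ≤ σ) (X : ℕ) : quo σ (σ * X) = X := by
  unfold quo
  rw [dig_mul hσ, add_zero, Nat.mul_div_cancel_left _ (by omega)]

theorem dig_one {σ : ℕ} (hσ : 2 ≤ σ) (m : ℕ) : dig σ (σ * m + 1) = σ - 1 := by
  unfold dig
  rw [Nat.mul_add_mod, Nat.mod_eq_of_lt (show 1 < σ by omega), Nat.mod_eq_of_lt (by omega)]

theorem quo_one {σ : ℕ} (hσ : 2 ≤ σ) (m : ℕ) : quo σ (σ * m + 1) = m + 1 := by
  unfold quo
  rw [dig_one hσ, show σ * m + 1 + (σ - 1) = σ * (m + 1) by rw [mul_add, mul_one]; omega,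
    Nat.mul_div_cancel_left _ (by omega)]

variable {S : Type} {σ k : ℕ} (hσ : 2 ≤ σ) {e : Option S → Fin k} {d : ℕ → Option S}
  [DecidableEq S] (hd : ∀ ℓ, d (e ℓ) = ℓ) (P : S → S → List S) (κ : S)

/-- The configuration at the beginning of a letter. -/
def at0 (m : Mode S) (N M : ℕ) : Cfg (Mode S × Fin (k + 1)) := ⟨(m, 0), N, M⟩

omit [DecidableEq S] in
theorem e_lt (e : Option S → Fin k) (ℓ : Option S) : (e ℓ : ℕ) < k := (e ℓ).2

include hσ in
theorem zeros (m : Mode S) (M X : ℕ) (t : ℕ) : ∀ (j : Fin (k + 1)), j.val + t ≤ k →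
    ∃ j' : Fin (k + 1), j'.val = j.val + t ∧
      Reaches (mstep σ (del σ k e d P κ)) ⟨(m, j), σ ^ t * X, M⟩ ⟨(m, j'), X, M⟩ := by
  induction t with
  | zero =>
    intro j _
    refine ⟨j, rfl, ?_⟩
    rw [pow_zero, one_mul]
    exact Relation.ReflTransGen.refl
  | succ t ih =>
    intro j hj
    obtain ⟨j', h1, h2⟩ := ih (nx k j) (by simp only [nx]; omega)
    refine ⟨j', by rw [h1]; simp only [nx]; omega, Relation.ReflTransGen.head ?_ h2⟩
    show mstep σ (del σ k e d P κ) _ = some _
    unfold mstep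
    simp only
    rw [show σ ^ (t + 1) * X = σ * (σ ^ t * X) by rw [pow_succ]; ring, dig_mul hσ, quo_mul hσ]
    simp [del]

include hσ in
/-- Reading one letter. -/
theorem read (m : Mode S) (ℓ : Option S) (L : List (Option S)) (M : ℕ) :
    ∃ j' : Fin (k + 1), j'.val = (e ℓ : ℕ) + 1 ∧
      Reaches (mstep σ (del σ k e d P κ)) (at0 m (mv σ k e (ℓ :: L) + 1) M)
        ⟨(m, j'), σ * mv σ k e L + 1, M⟩ := by
  have h := e_lt e ℓ
  obtain ⟨j', h1, h2⟩ := zeros (e := e) (d := d) hσ P κ m M (σ * mv σ k e L + 1)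
    ((e ℓ : ℕ) + 1) 0 (by simp only [Fin.val_zero]; omega)
  refine ⟨j', by rw [h1]; simp, ?_⟩
  unfold at0
  rw [mv_cons σ k e hσ]
  exact h2

include hσ hd in
/-- Reading one letter, and the action. -/
theorem read_act (m : Mode S) (ℓ : Option S) (L : List (Option S)) (M : ℕ) :
    Reaches₁ (mstep σ (del σ k e d P κ)) (at0 m (mv σ k e (ℓ :: L) + 1) M)
        (at0 (la σ k e m ℓ).1 (mv σ k e L + 1)
          ((la σ k e m ℓ).2.1 * M + (la σ k e m ℓ).2.2)) := by
  obtain ⟨j', h1, h2⟩ := read (e := e) (d := d) hσ P κ m ℓ L M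
  refine Relation.TransGen.tail' h2 ?_
  show mstep σ (del σ k e d P κ) _ = some _
  unfold mstep
  simp only
  rw [dig_one hσ, quo_one hσ]
  unfold del
  rw [if_neg (by omega)]
  simp only
  rw [if_neg (by omega), show j'.val - 1 = (e ℓ : ℕ) by omega, hd]
  rfl

include hσ hd in
/-- Copying. -/
theorem copy (m : Mode S) (hm : ∀ ℓ, la σ k e m ℓ = (m, pA σ k e ℓ, pB σ k e ℓ))
    (W : List (Option S)) : ∀ L' : List (Option S),
    Reaches (mstep σ (del σ k e d P κ)) (at0 m (mv σ k e W + 1) (mv σ k e L'))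
      (at0 m 1 (mv σ k e (W.reverse ++ L'))) := by
  induction W with
  | nil =>
    intro L'
    exact Relation.ReflTransGen.refl
  | cons ℓ W ih =>
    intro L'
    have h1 := read_act hσ hd P κ m ℓ W (mv σ k e L')
    rw [hm] at h1
    have h2 := ih (ℓ :: L')
    rw [List.reverse_cons, List.append_assoc, List.singleton_append]
    exact h1.to_reflTransGen.trans h2

/-- The configuration representing a word of the queue system. -/
def start (w : List S) : Cfg (Mode S × Fin (k + 1)) :=
  at0 .a0 (mv σ k e (none :: w.map some) + 1) 0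

include hσ in
theorem empty_a3 (x y : S) (L' : List (Option S)) :
    mstep σ (del σ k e d P κ) (at0 (.a3 x y) 1 (mv σ k e L')) =
      some (at0 .b0 (mv σ k e (none :: ((P x y).reverse.map some ++ L')) + 1) 0) := by
  have h1 : dig σ 1 = σ - 1 := by simpa using dig_one hσ 0
  have h2 : quo σ 1 = 1 := by simpa using quo_one hσ 0
  unfold mstep at0
  simp only
  rw [h1, h2]
  unfold del
  rw [if_neg (by omega)]
  simp only [Fin.val_zero, if_true]
  rw [← List.cons_append, mv_append, add_comm 1]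

include hσ in
theorem empty_b1 (L' : List (Option S)) :
    mstep σ (del σ k e d P κ) (at0 .b1 1 (mv σ k e L')) =
      some (at0 .a0 (mv σ k e (none :: L') + 1) 0) := by
  have h1 : dig σ 1 = σ - 1 := by simpa using dig_one hσ 0
  have h2 : quo σ 1 = 1 := by simpa using quo_one hσ 0
  unfold mstep at0
  simp only
  rw [h1, h2]
  unfold del
  rw [if_neg (by omega)]
  simp only [Fin.val_zero, if_true]
  rw [show (none :: L' : List (Option S)) = [none] ++ L' from rfl, mv_append, add_comm 1]

include hσ in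
theorem empty_kill (M : ℕ) :
    mstep σ (del σ k e d P κ) (at0 (.a2 κ) 1 M) = none := by
  have h1 : dig σ 1 = σ - 1 := by simpa using dig_one hσ 0
  unfold mstep at0
  simp only
  rw [h1]
  unfold del
  rw [if_neg (by omega)]
  simp

include hσ hd in
/-- One step of the queue system. -/
theorem qstep_sim (x y : S) (t : List S) :
    Reaches₁ (mstep σ (del σ k e d P κ)) (start (σ := σ) (e := e) (x :: y :: t))
      (start (σ := σ) (e := e) (t ++ P x y)) := by
  have r := fun m ℓ L M => read_act hσ hd P κ (e := e) m ℓ L M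
  have s1 := r .a0 none (some x :: some y :: t.map some) 0
  have s2 := r .a1 (some x) (some y :: t.map some) 0
  have s3 := r (.a2 x) (some y) (t.map some) 0
  have s4 := copy hσ hd P κ (e := e) (.a3 x y) (fun ℓ => rfl) (t.map some) []
  have s5 := empty_a3 hσ (e := e) (d := d) P κ x y ((t.map some).reverse ++ [])
  have s6 := r .b0 none ((P x y).reverse.map some ++ ((t.map some).reverse ++ [])) 0
  have s7 := copy hσ hd P κ (e := e) .b1 (fun ℓ => rfl)
    ((P x y).reverse.map some ++ ((t.map some).reverse ++ [])) []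
  have s8 := empty_b1 hσ (e := e) (d := d) P κ
    (((P x y).reverse.map some ++ ((t.map some).reverse ++ [])).reverse ++ [])
  simp only [la, mul_zero, add_zero] at s1 s2 s3 s6
  have z : mv σ k e ([] : List (Option S)) = 0 := rfl
  rw [z] at s4 s7
  have e1 : (((P x y).reverse.map some ++ ((t.map some).reverse ++ [])).reverse ++ []) =
      (t ++ P x y).map some := by
    simp
  rw [e1] at s7 s8
  have f5 : Reaches (mstep σ (del σ k e d P κ)) _ _ := Relation.ReflTransGen.single s5
  have f8 : Reaches (mstep σ (del σ k e d P κ)) _ _ := Relation.ReflTransGen.single s8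
  exact s1.trans_left (s2.to_reflTransGen.trans (s3.to_reflTransGen.trans (s4.trans (f5.trans
    (s6.to_reflTransGen.trans (s7.trans f8))))))

include hσ hd in
/-- The end. -/
theorem end_sim : Reaches (mstep σ (del σ k e d P κ)) (start (σ := σ) (e := e) [κ])
    (at0 (.a2 κ) 1 0) := by
  have r := fun m ℓ L M => read_act hσ hd P κ (e := e) m ℓ L M
  have s1 := r .a0 none [some κ] 0
  have s2 := r .a1 (some κ) [] 0
  simp only [la, mul_zero, add_zero] at s1 s2
  exact s1.to_reflTransGen.trans s2.to_reflTransGen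

/-- The queue system as a function. -/
def qf (P : S → S → List S) : List S → Option (List S)
  | x :: y :: t => some (t ++ P x y)
  | _ => none

include hσ hd in
/-- The simulation. -/
theorem respects (hP : ∀ x y, 2 ≤ (P x y).length ∨ P x y = [κ]) :
    Respects (qf P) (mstep σ (del σ k e d P κ)) (fun w c =>
      (w = [κ] ∧ c = at0 (.a2 κ) 1 0) ∨
      (2 ≤ w.length ∧ c = start (σ := σ) (e := e) w)) := by
  rintro w c (⟨rfl, rfl⟩ | ⟨hw, rfl⟩)
  · exact empty_kill hσ (e := e) (d := d) P κ 0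
  · match w, hw with
    | x :: y :: t, _ =>
      show ∃ b₂, _ ∧ _
      have h1 := qstep_sim hσ hd P κ (e := e) x y t
      by_cases h : 2 ≤ (t ++ P x y).length
      · exact ⟨_, Or.inr ⟨h, rfl⟩, h1⟩
      · have h2 : t ++ P x y = [κ] := by
          rcases hP x y with h3 | h3
          · exfalso
            apply h
            rw [List.length_append]
            omega
          · rw [h3, List.length_append, List.length_singleton] at h
            have : t = [] := List.eq_nil_of_length_eq_zero (by omega)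
            rw [this, h3, List.nil_append]
        rw [h2] at h1
        exact ⟨_, Or.inl ⟨h2, rfl⟩, h1.trans_left (end_sim hσ hd P κ)⟩

/-- The invariant. -/
def Inv (σ k : ℕ) (e : Option S → Fin k) (c : Cfg (Mode S × Fin (k + 1))) : Prop :=
  (∃ L', c.M = mv σ k e L') ∧ ((c.q.2.val = 0 ∧ ∃ L, c.N = mv σ k e L + 1) ∨
    ∃ (t : ℕ) (L : List (Option S)), 1 ≤ c.q.2.val ∧ c.q.2.val + t ≤ k ∧
      c.N = σ ^ t * (σ * mv σ k e L + 1))

omit [DecidableEq S] in
theorem inv_pos (hσ : 2 ≤ σ) {c : Cfg (Mode S × Fin (k + 1))} (h : Inv σ k e c) : 0 < c.N := by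
  obtain ⟨-, ⟨-, L, hL⟩ | ⟨t, L, -, -, hL⟩⟩ := h
  · omega
  · rw [hL]
    exact Nat.mul_pos (Nat.pow_pos (by omega)) (by omega)

include hσ in
/-- The invariant is preserved, and the machine halts only if the stack is empty. -/
theorem inv_step {c : Cfg (Mode S × Fin (k + 1))} (h : Inv σ k e c) :
    (∀ c', mstep σ (del σ k e d P κ) c = some c' → Inv σ k e c') ∧
    (mstep σ (del σ k e d P κ) c = none → quo σ c.N = 1) := by
  obtain ⟨⟨m, j⟩, N, M⟩ := c
  obtain ⟨⟨L', hM⟩, h⟩ := h
  simp only at hM h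
  subst hM
  rcases h with ⟨hj, L, rfl⟩ | ⟨t, L, h1, h2, rfl⟩
  · have hj0 : j = 0 := Fin.ext hj
    subst hj0
    cases L with
    | nil =>
      have hN : mv σ k e ([] : List (Option S)) + 1 = 1 := rfl
      have d1 : dig σ 1 = σ - 1 := by simpa using dig_one hσ 0
      have q1 : quo σ 1 = 1 := by simpa using quo_one hσ 0
      rw [hN]
      refine ⟨fun c' hc => ?_, fun _ => q1⟩
      unfold mstep del at hc
      simp only [d1, q1] at hc
      rw [if_neg (by omega)] at hc
      simp only [Fin.val_zero, if_true] at hc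
      have inv1 : ∀ m' : Mode S, Inv σ k e ⟨(m', 0), 1, 1 * mv σ k e L' + 0⟩ := fun m' =>
        ⟨⟨L', by simp⟩, Or.inl ⟨rfl, [], rfl⟩⟩
      cases m with
      | a0 => simp only [Option.some.injEq] at hc; rw [← hc]; exact inv1 _
      | a1 => simp only [Option.some.injEq] at hc; rw [← hc]; exact inv1 _
      | b0 => simp only [Option.some.injEq] at hc; rw [← hc]; exact inv1 _
      | a2 x =>
        by_cases hx : x = κ
        · simp [hx] at hc
        · simp only [if_neg hx, Option.some.injEq] at hc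
          rw [← hc]
          exact inv1 _
      | a3 x y =>
        simp only [Option.some.injEq] at hc
        rw [← hc]
        refine ⟨⟨[], rfl⟩, Or.inl ⟨rfl, none :: (P x y).reverse.map some ++ L', ?_⟩⟩
        rw [mv_append]
        exact add_comm _ _
      | b1 =>
        simp only [Option.some.injEq] at hc
        rw [← hc]
        refine ⟨⟨[], rfl⟩, Or.inl ⟨rfl, [none] ++ L', ?_⟩⟩
        rw [mv_append]
        exact add_comm _ _
    | cons ℓ L =>
      have hk := e_lt e ℓ
      have hN : mv σ k e (ℓ :: L) + 1 = σ * (σ ^ (e ℓ : ℕ) * (σ * mv σ k e L + 1)) := by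
        rw [mv_cons σ k e hσ, pow_succ]
        ring
      rw [hN]
      unfold mstep del
      simp only [dig_mul hσ, quo_mul hσ, if_true]
      refine ⟨fun c' hc => ?_, fun hc => by simp at hc⟩
      simp only [Option.some.injEq] at hc
      rw [← hc]
      refine ⟨⟨L', by simp⟩, Or.inr ⟨(e ℓ : ℕ), L, ?_, ?_, rfl⟩⟩
      · simp only [nx, Fin.val_zero]
        omega
      · simp only [nx, Fin.val_zero]
        omega
  · cases t with
    | zero =>
      rw [pow_zero, one_mul]
      unfold mstep del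
      simp only [dig_one hσ, quo_one hσ]
      rw [if_neg (by omega), if_neg (by omega)]
      refine ⟨fun c' hc => ?_, fun hc => by simp at hc⟩
      simp only [Option.some.injEq] at hc
      rw [← hc]
      refine ⟨?_, Or.inl ⟨rfl, L, rfl⟩⟩
      simp only
      rcases la_spec σ k e m (d (j.val - 1)) with h | h
      · rw [h]
        exact ⟨L', by simp⟩
      · rw [h]
        exact ⟨d (j.val - 1) :: L', rfl⟩
    | succ t =>
      rw [show σ ^ (t + 1) * (σ * mv σ k e L + 1) = σ * (σ ^ t * (σ * mv σ k e L + 1)) by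
        rw [pow_succ]; ring]
      unfold mstep del
      simp only [dig_mul hσ, quo_mul hσ, if_true]
      refine ⟨fun c' hc => ?_, fun hc => by simp at hc⟩
      simp only [Option.some.injEq] at hc
      rw [← hc]
      refine ⟨⟨L', by simp⟩, Or.inr ⟨t, L, ?_, ?_, rfl⟩⟩
      · simp only [nx]
        omega
      · simp only [nx]
        omega

end run

end Pool.Agent.W5h69.Tag
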